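import Pool.Agent.Lib_helper95.RC.Basic

/-! # Block INT -/

open scoped BigOperators ComplexOrder Kronecker MatrixOrder Topology
open MeasureTheory Set Matrix Filter

namespace Pool.Agent.RC

variable {ι κ : Type} [Fintype ι] [DecidableEq ι] [Fintype κ] [DecidableEq κ]

/-! ### scalar integrals -/

theorem integrableOn_scalar (α a : ℝ) (n : ℕ) (h0 : 0 < α) (hα : α < n) (ha : 0 < a) :
    IntegrableOn (fun r : ℝ => r ^ (α - 1) * ((a + r) ^ n)⁻¹) (Ioi 0) := by
  have hcont : ContinuousOn (fun r : ℝ => r ^ (α - 1) * ((a + r) ^ n)⁻¹) (Ioi 0) := by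
    apply ContinuousOn.mul
    · exact ContinuousOn.rpow_const continuousOn_id (fun r hr => Or.inl (ne_of_gt hr))
    · apply ContinuousOn.inv₀
      · fun_prop
      · intro r hr
        have : (0 : ℝ) < r := hr
        positivity
  rw [← Set.Ioc_union_Ioi_eq_Ioi zero_le_one]
  apply IntegrableOn.union
  · have h1 : IntegrableOn (fun r : ℝ => r ^ (α - 1) * (a ^ n)⁻¹) (Ioc 0 1) := by
      apply Integrable.mul_const
      rw [← IntegrableOn, integrableOn_Ioc_iff_integrableOn_Ioo,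
        intervalIntegral.integrableOn_Ioo_rpow_iff zero_lt_one]
      linarith
    refine Integrable.mono' h1 ?_ ?_
    · exact (hcont.mono Ioc_subset_Ioi_self).aestronglyMeasurable measurableSet_Ioc
    · refine ae_restrict_of_forall_mem measurableSet_Ioc fun r hr => ?_
      have hr0 : 0 < r := hr.1
      rw [Real.norm_of_nonneg (by positivity)]
      apply mul_le_mul_of_nonneg_left _ (by positivity)
      apply inv_anti₀ (by positivity)
      apply pow_le_pow_left₀ ha.le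
      linarith
  · have h1 : IntegrableOn (fun r : ℝ => r ^ (α - 1 - n)) (Ioi 1) :=
      integrableOn_Ioi_rpow_of_lt (by linarith) zero_lt_one
    refine Integrable.mono' h1 ?_ ?_
    · exact (hcont.mono (Ioi_subset_Ioi zero_le_one)).aestronglyMeasurable measurableSet_Ioi
    · refine ae_restrict_of_forall_mem measurableSet_Ioi fun r hr => ?_
      have hr0 : (0 : ℝ) < r := lt_trans zero_lt_one hr
      rw [Real.norm_of_nonneg (by positivity), Real.rpow_sub hr0 (α - 1) n, Real.rpow_natCast,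
        div_eq_mul_inv]
      apply mul_le_mul_of_nonneg_left _ (by positivity)
      apply inv_anti₀ (by positivity)
      apply pow_le_pow_left₀ hr0.le
      linarith

theorem integrableOn_bet (α : ℝ) (n : ℕ) (h0 : 0 < α) (hα : α < n) :
    IntegrableOn (fun r : ℝ => r ^ (α - 1) * ((1 + r) ^ n)⁻¹) (Ioi 0) :=
  integrableOn_scalar α 1 n h0 hα zero_lt_one

theorem bet_pos (α : ℝ) (n : ℕ) (h0 : 0 < α) (hα : α < n) : 0 < bet α n := by
  unfold bet
  rw [integral_pos_iff_support_of_nonneg_ae]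
  · have : Function.support (fun r : ℝ => r ^ (α - 1) * ((1 + r) ^ n)⁻¹) ∩ Ioi 0 = Ioi 0 := by
      apply Set.inter_eq_right.2
      intro r hr
      have hr0 : (0 : ℝ) < r := hr
      rw [Function.mem_support]
      positivity
    rw [Measure.restrict_apply' measurableSet_Ioi, this]
    simp
  · refine ae_restrict_of_forall_mem measurableSet_Ioi fun r hr => ?_
    have hr0 : (0 : ℝ) < r := hr
    show (0 : ℝ) ≤ r ^ (α - 1) * ((1 + r) ^ n)⁻¹
    positivity
  · exact integrableOn_bet α n h0 hα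

/-- change of variables `r = a t` -/
theorem integral_scale (α a : ℝ) (f : ℝ → ℝ) (ha : 0 < a) :
    ∫ r in Ioi (0 : ℝ), r ^ (α - 1) * f r =
      a ^ α * ∫ t in Ioi (0 : ℝ), t ^ (α - 1) * f (a * t) := by
  have h := MeasureTheory.integral_comp_mul_left_Ioi (fun r => r ^ (α - 1) * f r) 0 ha
  rw [mul_zero] at h
  have h2 : ∫ t in Ioi (0 : ℝ), (a * t) ^ (α - 1) * f (a * t) =
      a ^ (α - 1) * ∫ t in Ioi (0 : ℝ), t ^ (α - 1) * f (a * t) := by
    rw [← integral_const_mul]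
    apply setIntegral_congr_fun measurableSet_Ioi
    intro t ht
    have ht0 : (0 : ℝ) < t := ht
    show (a * t) ^ (α - 1) * f (a * t) = a ^ (α - 1) * (t ^ (α - 1) * f (a * t))
    rw [Real.mul_rpow ha.le ht0.le]
    ring
  rw [h2] at h
  have h3 : a ^ α = a * a ^ (α - 1) := by
    rw [Real.rpow_sub_one ha.ne']
    field_simp
  rw [h3, mul_assoc, h, smul_eq_mul]
  field_simp

theorem bet_scale (α a : ℝ) (n : ℕ) (ha : 0 < a) :
    ∫ r in Ioi (0 : ℝ), r ^ (α - 1) * ((a + r) ^ n)⁻¹ = a ^ (α - n) * bet α n := by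
  rw [integral_scale α a (fun r => ((a + r) ^ n)⁻¹) ha]
  unfold bet
  rw [← integral_const_mul, ← integral_const_mul]
  apply setIntegral_congr_fun measurableSet_Ioi
  intro t ht
  show a ^ α * (t ^ (α - 1) * ((a + a * t) ^ n)⁻¹) = a ^ (α - n) * (t ^ (α - 1) * ((1 + t) ^ n)⁻¹)
  rw [Real.rpow_sub ha, Real.rpow_natCast]
  have h : a + a * t = a * (1 + t) := by ring
  rw [h, mul_pow, mul_inv]
  ring

theorem res_smul (A : Matrix ι ι ℂ) (a t : ℝ) (ha : 0 < a) :
    Res (a • A) (a * t) = a⁻¹ • Res A t := by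
  unfold Res
  have h : a • A + ((a * t : ℝ) : ℂ) • (1 : Matrix ι ι ℂ) =
      (a : ℂ) • (A + (t : ℂ) • (1 : Matrix ι ι ℂ)) := by
    rw [smul_add, smul_smul]
    push_cast
    rfl
  rw [h]
  have ha' : IsUnit (a : ℂ) := by
    rw [isUnit_iff_ne_zero]
    exact_mod_cast ha.ne'
  by_cases hd : IsUnit (A + (t : ℂ) • (1 : Matrix ι ι ℂ)).det
  · apply Matrix.inv_eq_right_inv
    rw [Matrix.smul_mul, Matrix.mul_smul, Matrix.mul_nonsing_inv _ hd]
    ext i j
    simp only [Matrix.smul_apply, smul_eq_mul, Complex.real_smul]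
    push_cast
    rw [← mul_assoc, mul_inv_cancel₀ ha'.ne_zero, one_mul]
  · rw [Matrix.nonsing_inv_apply_not_isUnit _ hd]
    rw [Matrix.nonsing_inv_apply_not_isUnit, smul_zero]
    rw [Matrix.det_smul, IsUnit.mul_iff]
    intro hh
    exact hd hh.2

theorem tn_smul (A D : Matrix ι ι ℂ) (n : ℕ) (a t : ℝ) (ha : 0 < a) :
    tn (a • A) D n (a * t) = (a ^ n)⁻¹ * tn A D n t := by
  unfold tn
  rw [res_smul A a t ha, Matrix.smul_mul, smul_pow, Matrix.trace_smul, Complex.smul_re,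
    smul_eq_mul, inv_pow]

theorem In_scale (α a : ℝ) (A D : Matrix ι ι ℂ) (n : ℕ) (ha : 0 < a) :
    In α (a • A) D n = a ^ (α - n) * In α A D n := by
  unfold In
  rw [integral_scale α a (fun r => tn (a • A) D n r) ha]
  rw [← integral_const_mul, ← integral_const_mul]
  apply setIntegral_congr_fun measurableSet_Ioi
  intro t ht
  show a ^ α * (t ^ (α - 1) * tn (a • A) D n (a * t)) = a ^ (α - n) * (t ^ (α - 1) * tn A D n t)
  rw [tn_smul A D n a t ha, Real.rpow_sub ha, Real.rpow_natCast]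
  ring

/-! ### bounds on matrix powers -/

theorem norm_pow_entry_le (M : Matrix κ κ ℂ) (c : ℝ) (hM : ∀ i j, ‖M i j‖ ≤ c) (n : ℕ)
    (i j : κ) : ‖(M ^ (n + 1)) i j‖ ≤ (Fintype.card κ * c) ^ n * c := by
  have hc : 0 ≤ c := (norm_nonneg _).trans (hM i j)
  induction n generalizing i j with
  | zero => simpa using hM i j
  | succ n ih =>
    rw [pow_succ, Matrix.mul_apply]
    calc ‖∑ k, (M ^ (n + 1)) i k * M k j‖ ≤ ∑ k, ‖(M ^ (n + 1)) i k * M k j‖ := norm_sum_le _ _
      _ ≤ ∑ _k : κ, ((Fintype.card κ * c) ^ n * c) * c := by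
          apply Finset.sum_le_sum
          intro k _
          rw [norm_mul]
          exact mul_le_mul (ih i k) (hM k j) (norm_nonneg _) (by positivity)
      _ = _ := by
          rw [Finset.sum_const, Finset.card_univ, nsmul_eq_mul]
          ring

theorem abs_trace_pow_le (M : Matrix κ κ ℂ) (c : ℝ) (hc : 0 ≤ c) (hM : ∀ i j, ‖M i j‖ ≤ c)
    (n : ℕ) (hn : 0 < n) : |((M ^ n).trace).re| ≤ (Fintype.card κ * c) ^ n := by
  obtain ⟨m, rfl⟩ : ∃ m, n = m + 1 := ⟨n - 1, by omega⟩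
  calc |((M ^ (m + 1)).trace).re| ≤ ‖(M ^ (m + 1)).trace‖ := Complex.abs_re_le_norm _
    _ ≤ ∑ i, ‖(M ^ (m + 1)) i i‖ := by
        unfold Matrix.trace
        exact norm_sum_le _ _
    _ ≤ ∑ _i : κ, (Fintype.card κ * c) ^ m * c :=
        Finset.sum_le_sum fun i _ => norm_pow_entry_le M c hM m i i
    _ = _ := by
        rw [Finset.sum_const, Finset.card_univ, nsmul_eq_mul]
        ring

/-! ### the function `r ↦ Re Tr [(diag(f_k(r)) E)^n]` -/

/-- `Re Tr [(diag c E)^n]` -/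
noncomputable def Tc (c : κ → ℝ) (E : Matrix κ κ ℂ) (n : ℕ) : ℝ := (((dg c * E) ^ n).trace).re

theorem continuous_Tc (E : Matrix κ κ ℂ) (n : ℕ) : Continuous fun c : κ → ℝ => Tc c E n := by
  unfold Tc dg
  have h1 : Continuous fun c : κ → ℝ => (Matrix.diagonal fun k => (c k : ℂ)) := by
    apply Continuous.matrix_diagonal
    fun_prop
  have h2 : Continuous fun c : κ → ℝ => (((Matrix.diagonal fun k => (c k : ℂ)) * E) ^ n) :=
    (h1.mul continuous_const).pow n
  exact Complex.continuous_re.comp h2.matrix_trace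

theorem exists_bound (E : Matrix κ κ ℂ) : ∃ B : ℝ, 0 ≤ B ∧ ∀ i j, ‖E i j‖ ≤ B := by
  refine ⟨∑ i, ∑ j, ‖E i j‖, by positivity, fun i j => ?_⟩
  calc ‖E i j‖ ≤ ∑ j', ‖E i j'‖ :=
        Finset.single_le_sum (f := fun j' => ‖E i j'‖) (fun _ _ => norm_nonneg _)
          (Finset.mem_univ j)
    _ ≤ _ := Finset.single_le_sum (f := fun i' => ∑ j', ‖E i' j'‖)
          (fun _ _ => by positivity) (Finset.mem_univ i)

theorem abs_Tc_le (E : Matrix κ κ ℂ) (n : ℕ) (hn : 0 < n) :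
    ∃ C : ℝ, 0 ≤ C ∧ ∀ (c : κ → ℝ) (x : ℝ), 0 ≤ x → (∀ k, |c k| ≤ x) → |Tc c E n| ≤ C * x ^ n := by
  obtain ⟨B, hB, hE⟩ := exists_bound E
  refine ⟨(Fintype.card κ * B) ^ n, by positivity, fun c x hx hc => ?_⟩
  have h := abs_trace_pow_le (dg c * E) (x * B) (by positivity) (by
    intro i j
    unfold dg
    rw [Matrix.diagonal_mul, norm_mul, Complex.norm_real]
    exact mul_le_mul (hc i) (hE i j) (norm_nonneg _) hx) n hn
  unfold Tc
  refine h.trans (le_of_eq ?_)
  rw [← mul_pow]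
  congr 1
  ring

theorem tn_dg (b : κ → ℝ) (hb : ∀ k, 0 < b k) (E : Matrix κ κ ℂ) (n : ℕ) (r : ℝ) (hr : 0 ≤ r) :
    tn (dg b) E n r = Tc (fun k => (b k + r)⁻¹) E n := by
  unfold tn Tc
  rw [res_dg]
  intro k
  have := hb k
  linarith

/-- reduction of a pair to the diagonal case -/
theorem exists_diag_pair (A D : Matrix ι ι ℂ) (hA : A.PosDef) :
    ∃ (U : Matrix ι ι ℂ) (a : ι → ℝ) (E : Matrix ι ι ℂ), star U * U = 1 ∧ U * star U = 1 ∧
      (∀ i, 0 < a i) ∧ A = U * dg a * star U ∧ D = U * E * star U ∧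
      (D.IsHermitian → E.IsHermitian) := by
  obtain ⟨U, a, hU, hU', ha, hA'⟩ := exists_diag A hA
  refine ⟨U, a, star U * D * U, hU, hU', ha, hA', ?_, ?_⟩
  · calc D = (U * star U) * D * (U * star U) := by rw [hU']; simp
      _ = _ := by noncomm_ring
  · intro hD
    have : (star U * D * U).IsHermitian := by
      have := Matrix.isHermitian_conjTranspose_mul_mul U hD
      exact this
    exact this

theorem integrableOn_Tc (α : ℝ) (E : Matrix κ κ ℂ) (n : ℕ) (h0 : 0 < α) (hα : α < n)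
    (f : κ → ℝ → ℝ) (a : ℝ) (ha : 0 < a) (hf : ∀ k, ContinuousOn (f k) (Ioi 0))
    (C : ℝ) (hC : 0 ≤ C) (hb : ∀ k r, 0 < r → |f k r| ≤ C * (a + r)⁻¹) :
    IntegrableOn (fun r => r ^ (α - 1) * Tc (fun k => f k r) E n) (Ioi 0) := by
  have hn : 0 < n := by
    rcases Nat.eq_zero_or_pos n with h | h
    · subst h; norm_num at hα; linarith
    · exact h
  obtain ⟨K, hK, hT⟩ := abs_Tc_le E n hn
  have h1 := (integrableOn_scalar α a n h0 hα ha).const_mul (K * C ^ n)
  refine Integrable.mono' h1 ?_ ?_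
  · apply ContinuousOn.aestronglyMeasurable _ measurableSet_Ioi
    apply ContinuousOn.mul
    · exact ContinuousOn.rpow_const continuousOn_id (fun r hr => Or.inl (ne_of_gt hr))
    · exact (continuous_Tc E n).comp_continuousOn (continuousOn_pi.2 hf)
  · refine ae_restrict_of_forall_mem measurableSet_Ioi fun r hr => ?_
    have hr0 : (0 : ℝ) < r := hr
    rw [norm_mul, Real.norm_of_nonneg (by positivity : (0 : ℝ) ≤ r ^ (α - 1)), Real.norm_eq_abs]
    have h2 := hT (fun k => f k r) (C * (a + r)⁻¹) (by positivity) (fun k => hb k r hr0)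
    calc r ^ (α - 1) * |Tc (fun k => f k r) E n|
        ≤ r ^ (α - 1) * (K * (C * (a + r)⁻¹) ^ n) :=
          mul_le_mul_of_nonneg_left h2 (by positivity)
      _ = _ := by rw [mul_pow, inv_pow]; ring

theorem exists_min (b : κ → ℝ) (hb : ∀ k, 0 < b k) : ∃ a, 0 < a ∧ ∀ k, a ≤ b k := by
  rcases isEmpty_or_nonempty κ with h | h
  · exact ⟨1, one_pos, fun k => (h.false k).elim⟩
  · obtain ⟨k₀, hk₀⟩ := Finite.exists_min b
    exact ⟨b k₀, hb k₀, hk₀⟩

theorem exists_max (b : κ → ℝ) : ∃ a, 0 < a ∧ ∀ k, b k ≤ a := by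
  rcases isEmpty_or_nonempty κ with h | h
  · exact ⟨1, one_pos, fun k => (h.false k).elim⟩
  · obtain ⟨k₀, hk₀⟩ := Finite.exists_max b
    exact ⟨max 1 (b k₀), lt_of_lt_of_le one_pos (le_max_left _ _),
      fun k => (hk₀ k).trans (le_max_right _ _)⟩

theorem integrableOn_tn (α : ℝ) (A D : Matrix ι ι ℂ) (hA : A.PosDef) (n : ℕ) (h0 : 0 < α)
    (hα : α < n) : IntegrableOn (fun r => r ^ (α - 1) * tn A D n r) (Ioi 0) := by
  obtain ⟨U, a, E, hU, hU', ha, hA', hD', -⟩ := exists_diag_pair A D hA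
  obtain ⟨a₀, ha₀, hmin⟩ := exists_min a ha
  have h1 := integrableOn_Tc α E n h0 hα (fun k r => (a k + r)⁻¹) a₀ ha₀ (by
    intro k
    apply ContinuousOn.inv₀ (by fun_prop)
    intro r hr
    have hr0 : (0 : ℝ) < r := hr
    have := ha k
    linarith) 1 zero_le_one (by
    intro k r hr
    have := ha k
    rw [abs_of_nonneg (by positivity), one_mul]
    apply inv_anti₀ (by linarith)
    linarith [hmin k])
  refine IntegrableOn.congr_fun h1 ?_ measurableSet_Ioi
  intro r hr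
  have hr0 : (0 : ℝ) < r := hr
  show r ^ (α - 1) * Tc (fun k => (a k + r)⁻¹) E n = r ^ (α - 1) * tn A D n r
  rw [hA', hD', tn_conj U _ _ hU hU', tn_dg a ha E n r hr0.le]

/-! ### positivity -/

/-- `Tr (X^n) ≥ 0` for hermitian `X` and even `n` -/
theorem trace_pow_nonneg (X : Matrix κ κ ℂ) (hX : X.IsHermitian) (n : ℕ) (hn : Even n) :
    0 ≤ ((X ^ n).trace).re := by
  obtain ⟨m, rfl⟩ := hn
  have h1 : X ^ (m + m) = (X ^ m)ᴴ * X ^ m := by
    rw [(hX.pow m).eq, pow_add]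
  rw [h1]
  have h2 := (Matrix.posSemidef_conjTranspose_mul_self (X ^ m)).trace_nonneg
  exact (Complex.le_def.1 h2).1

theorem pow_diag_nonneg (X : Matrix κ κ ℂ) (hX : X.IsHermitian) (n : ℕ) (hn : Even n) (k : κ) :
    0 ≤ ((X ^ n) k k).re := by
  obtain ⟨m, rfl⟩ := hn
  have h1 : X ^ (m + m) = (X ^ m)ᴴ * X ^ m := by
    rw [(hX.pow m).eq, pow_add]
  rw [h1]
  have h2 := (Matrix.posSemidef_conjTranspose_mul_self (X ^ m)).diag_nonneg (i := k)
  exact (Complex.le_def.1 h2).1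

/-- symmetrised form: `Re Tr [(diag c E)^n] = Re Tr [(√c E √c)^n]` -/
theorem Tc_sym (c : κ → ℝ) (hc : ∀ k, 0 ≤ c k) (E : Matrix κ κ ℂ) (n : ℕ) :
    Tc c E n = (((dg (fun k => √(c k)) * E * dg (fun k => √(c k))) ^ n).trace).re := by
  unfold Tc
  have h1 : dg c = dg (fun k => √(c k)) * dg (fun k => √(c k)) := by
    rw [dg_mul_dg]
    congr 1
    ext k
    exact (Real.mul_self_sqrt (hc k)).symm
  rcases n with _ | n
  · simp
  set S := dg (fun k => √(c k)) with hS
  have h2 : ∀ m, (S * S * E) ^ (m + 1) = S * (S * E * S) ^ m * (S * E) := by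
    intro m
    induction m with
    | zero => simp [Matrix.mul_assoc]
    | succ m ih =>
      rw [pow_succ, ih, pow_succ (S * E * S)]
      noncomm_ring
  rw [h1, h2 n, Matrix.trace_mul_comm, ← Matrix.mul_assoc, ← pow_succ', Matrix.mul_assoc S E S]

theorem sym_isHermitian (c : κ → ℝ) (E : Matrix κ κ ℂ) (hE : E.IsHermitian) :
    (dg c * E * dg c).IsHermitian := by
  have h := Matrix.isHermitian_conjTranspose_mul_mul (dg c) hE
  rwa [(dg_isHermitian c).eq] at h

theorem Tc_nonneg (c : κ → ℝ) (hc : ∀ k, 0 ≤ c k) (E : Matrix κ κ ℂ) (hE : E.IsHermitian)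
    (n : ℕ) (hn : Even n) : 0 ≤ Tc c E n := by
  rw [Tc_sym c hc]
  exact trace_pow_nonneg _ (sym_isHermitian _ E hE) n hn

theorem tn_nonneg (A D : Matrix ι ι ℂ) (hA : A.PosDef) (hD : D.IsHermitian) (n : ℕ)
    (hn : Even n) (r : ℝ) (hr : 0 < r) : 0 ≤ tn A D n r := by
  obtain ⟨U, a, E, hU, hU', ha, hA', hD', hE⟩ := exists_diag_pair A D hA
  rw [hA', hD', tn_conj U _ _ hU hU', tn_dg a ha E n r hr.le]
  exact Tc_nonneg _ (fun k => by have := ha k; positivity) E (hE hD) n hn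

theorem In_nonneg (α : ℝ) (A D : Matrix ι ι ℂ) (hA : A.PosDef) (hD : D.IsHermitian) (n : ℕ)
    (hn : Even n) : 0 ≤ In α A D n := by
  unfold In
  apply setIntegral_nonneg measurableSet_Ioi
  intro r hr
  have hr0 : (0 : ℝ) < r := hr
  have := tn_nonneg A D hA hD n hn r hr0
  positivity

end Pool.Agent.RC
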