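import Pool.Agent.Lib_helper95.RC.Flag
import Pool.Agent.Lib_helper92.RC.Ser

/-!
# Block MAIN: the inequality for `α ∈ (0,2)`, `α ≠ 1`, positive definite `A`
-/

open scoped BigOperators ComplexOrder Kronecker MatrixOrder Topology
open MeasureTheory Set Matrix Filter

namespace Pool.Agent.RC

variable {ι κ : Type} [Fintype ι] [DecidableEq ι] [Fintype κ] [DecidableEq κ]

/-- weighted Chebyshev sum inequality, finite form -/
theorem cheb_fin (w X Y : ℕ → ℝ) (hw : ∀ i, 0 ≤ w i) (hX : Antitone X) (hY : Antitone Y) (K : ℕ) :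
    (∑ i ∈ Finset.range K, w i * X i) * (∑ i ∈ Finset.range K, w i * Y i) ≤
      (∑ i ∈ Finset.range K, w i) * ∑ i ∈ Finset.range K, w i * (X i * Y i) := by
  induction K with
  | zero => simp
  | succ K ih =>
    rw [Finset.sum_range_succ, Finset.sum_range_succ, Finset.sum_range_succ,
      Finset.sum_range_succ]
    have h1 : 0 ≤ ∑ i ∈ Finset.range K, w i * ((X i - X K) * (Y i - Y K)) := by
      apply Finset.sum_nonneg
      intro i hi
      have hi' : i ≤ K := (Finset.mem_range.1 hi).le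
      exact mul_nonneg (hw i) (mul_nonneg (sub_nonneg.2 (hX hi')) (sub_nonneg.2 (hY hi')))
    have h2 : ∑ i ∈ Finset.range K, w i * ((X i - X K) * (Y i - Y K)) =
        (∑ i ∈ Finset.range K, w i * (X i * Y i)) - (∑ i ∈ Finset.range K, w i * X i) * Y K -
          (∑ i ∈ Finset.range K, w i * Y i) * X K + (∑ i ∈ Finset.range K, w i) * (X K * Y K) := by
      rw [Finset.sum_mul, Finset.sum_mul, Finset.sum_mul, ← Finset.sum_sub_distrib,
        ← Finset.sum_sub_distrib, ← Finset.sum_add_distrib]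
      apply Finset.sum_congr rfl
      intro i _
      ring
    rw [h2] at h1
    have h3 := mul_nonneg (hw K) h1
    set S := ∑ i ∈ Finset.range K, w i
    set A := ∑ i ∈ Finset.range K, w i * X i
    set B := ∑ i ∈ Finset.range K, w i * Y i
    set C := ∑ i ∈ Finset.range K, w i * (X i * Y i)
    have e1 : (S + w K) * (C + w K * (X K * Y K)) - (A + w K * X K) * (B + w K * Y K) =
        (S * C - A * B) + w K * (C - A * Y K - B * X K + S * (X K * Y K)) := by ring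
    linarith

/-- infinite form with a majorant of the products -/
theorem cheb (w X Y Z : ℕ → ℝ) (hw : ∀ i, 0 ≤ w i) (hX : Antitone X) (hY : Antitone Y)
    (hZ : ∀ i, X i * Y i ≤ Z i) (a b c s : ℝ)
    (ha : HasSum (fun i => w i * X i) a) (hb : HasSum (fun i => w i * Y i) b)
    (hc : HasSum (fun i => w i * Z i) c) (hs : HasSum w s) : a * b ≤ s * c := by
  have h1 := ha.tendsto_sum_nat.mul hb.tendsto_sum_nat
  have h2 := hs.tendsto_sum_nat.mul hc.tendsto_sum_nat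
  apply le_of_tendsto_of_tendsto' h1 h2
  intro K
  refine (cheb_fin w X Y hw hX hY K).trans ?_
  apply mul_le_mul_of_nonneg_left _ (Finset.sum_nonneg fun i _ => hw i)
  apply Finset.sum_le_sum
  intro i _
  exact mul_le_mul_of_nonneg_left (hZ i) (hw i)

theorem IsPair.herm {A D : Matrix ι ι ℂ} (h : IsPair A D) : D.IsHermitian := by
  have h1 : D = A - (A - D) := by abel
  rw [h1]
  exact h.pos.1.sub h.sub.1

theorem half_psd (X Y Z : Matrix ι ι ℂ) (hX : X.PosSemidef) (hY : Y.PosSemidef)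
    (h : X + Y = Z + Z) : Z.PosSemidef := by
  have h1 : Z = ((1 / 2 : ℝ) : ℂ) • (X + Y) := by
    rw [h, ← two_smul ℂ Z, smul_smul]
    norm_num
  rw [h1]
  apply Matrix.PosSemidef.smul (hX.add hY)
  have : (0 : ℝ) ≤ 1 / 2 := by norm_num
  exact_mod_cast this

theorem kron_sub_psd (A₁ D₁ : Matrix ι ι ℂ) (A₂ D₂ : Matrix κ κ ℂ)
    (h1 : (A₁ - D₁).PosSemidef) (h2 : (A₁ + D₁).PosSemidef)
    (h3 : (A₂ - D₂).PosSemidef) (h4 : (A₂ + D₂).PosSemidef) :
    (A₁ ⊗ₖ A₂ - D₁ ⊗ₖ D₂).PosSemidef := by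
  apply half_psd _ _ _ (h2.kronecker h3) (h1.kronecker h4)
  ext i j
  simp only [Matrix.add_apply, Matrix.sub_apply, Matrix.kroneckerMap_apply]
  ring

theorem kron_add_psd (A₁ D₁ : Matrix ι ι ℂ) (A₂ D₂ : Matrix κ κ ℂ)
    (h1 : (A₁ - D₁).PosSemidef) (h2 : (A₁ + D₁).PosSemidef)
    (h3 : (A₂ - D₂).PosSemidef) (h4 : (A₂ + D₂).PosSemidef) :
    (A₁ ⊗ₖ A₂ + D₁ ⊗ₖ D₂).PosSemidef := by
  apply half_psd _ _ _ (h2.kronecker h4) (h1.kronecker h3)
  ext i j
  simp only [Matrix.add_apply, Matrix.sub_apply, Matrix.kroneckerMap_apply]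
  ring

theorem IsPair.kron {A₁ D₁ : Matrix ι ι ℂ} {A₂ D₂ : Matrix κ κ ℂ} (h₁ : IsPair A₁ D₁)
    (h₂ : IsPair A₂ D₂) : IsPair (A₁ ⊗ₖ A₂) (D₁ ⊗ₖ D₂) where
  pos := h₁.pos.kronecker h₂.pos
  sub := kron_sub_psd _ _ _ _ h₁.sub h₁.add h₂.sub h₂.add
  add := kron_add_psd _ _ _ _ h₁.sub h₁.add h₂.sub h₂.add

/-- the scalar pair `(1, 1)` -/
theorem pair_one : IsPair (1 : Matrix Unit Unit ℂ) 1 where
  pos := Matrix.PosDef.one
  sub := by rw [sub_self]; exact Matrix.PosSemidef.zero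
  add := Matrix.PosSemidef.one.add Matrix.PosSemidef.one

theorem In_one (α : ℝ) (n : ℕ) : In α (1 : Matrix Unit Unit ℂ) 1 n = bet α n := by
  unfold In bet
  apply setIntegral_congr_fun measurableSet_Ioi
  intro r hr
  have hr0 : (0 : ℝ) < r := hr
  show r ^ (α - 1) * tn (1 : Matrix Unit Unit ℂ) 1 n r = r ^ (α - 1) * ((1 + r) ^ n)⁻¹
  have h1 : (1 : Matrix Unit Unit ℂ) = dg fun _ => 1 := dg_one.symm
  congr 1
  unfold tn
  rw [Matrix.mul_one]
  conv_lhs => rw [h1]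
  rw [res_dg _ _ (fun _ => by positivity)]
  unfold dg
  rw [Matrix.diagonal_pow, Matrix.trace_diagonal]
  simp only [Finset.univ_unique, Pi.pow_apply, Finset.sum_const, Finset.card_singleton, one_smul]
  rw [← Complex.ofReal_pow, Complex.ofReal_re, inv_pow]

theorem G_one (α : ℝ) (h0 : 0 < α) : G α (1 : Matrix Unit Unit ℂ) 1 = 2 ^ (α - 1) - 1 := by
  have htr : ∀ (f : ℝ → ℝ) (c : ℝ), trF f ((c : ℂ) • (1 : Matrix Unit Unit ℂ)) = f c := by
    intro f c
    have hh : ((c : ℂ) • (1 : Matrix Unit Unit ℂ)).IsHermitian := by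
      rw [dg_smul_one]
      exact dg_isHermitian _
    unfold trF
    rw [dif_pos hh]
    have h1 := hh.trace_eq_sum_eigenvalues
    rw [Matrix.trace_smul, Matrix.trace_one] at h1
    simp only [Fintype.card_unique, Nat.cast_one, smul_eq_mul, mul_one, Finset.univ_unique,
      Finset.sum_singleton] at h1
    rw [Finset.univ_unique, Finset.sum_singleton]
    have h2 : ((c : ℝ) : ℂ) = ((hh.eigenvalues default : ℝ) : ℂ) := h1
    exact congrArg f (Complex.ofReal_inj.1 h2).symm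
  unfold G
  have e1 : (1 : Matrix Unit Unit ℂ) + 1 = ((2 : ℝ) : ℂ) • (1 : Matrix Unit Unit ℂ) := by
    push_cast
    rw [two_smul]
  have e2 : (1 : Matrix Unit Unit ℂ) - 1 = ((0 : ℝ) : ℂ) • (1 : Matrix Unit Unit ℂ) := by simp
  have e3 : trF (fun x => x ^ α) (1 : Matrix Unit Unit ℂ) = 1 := by
    have := htr (fun x => x ^ α) 1
    simpa using this
  rw [e1, e2, htr, htr, e3]
  rw [Real.zero_rpow h0.ne', add_zero, Real.rpow_sub_one (by norm_num)]

theorem core02 (α : ℝ) (h0 : 0 < α) (h2 : α < 2) (h1 : α ≠ 1)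
    (A₁ D₁ : Matrix ι ι ℂ) (h₁ : IsPair A₁ D₁) (hD₁ : Flag A₁ D₁)
    (A₂ D₂ : Matrix κ κ ℂ) (h₂ : IsPair A₂ D₂) :
    G α A₁ D₁ * G α A₂ D₂ ≤ (2 ^ (α - 1) - 1) * G α (A₁ ⊗ₖ A₂) (D₁ ⊗ₖ D₂) := by
  obtain ⟨c, hc, hser⟩ := series02 α h0 h2 h1
  have hc0 : c ≠ 0 := by
    rintro rfl
    simp at hc
  have hα : ∀ m : ℕ, α < ((2 * (m + 1) : ℕ) : ℝ) := by
    intro m
    push_cast
    have : (0 : ℝ) ≤ m := Nat.cast_nonneg m
    linarith
  have hev : ∀ m : ℕ, Even (2 * (m + 1)) := fun m => even_two_mul _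
  have hb : ∀ m : ℕ, 0 < bet α (2 * (m + 1)) := fun m => bet_pos α _ h0 (hα m)
  have hanti : ∀ {ι : Type} [Fintype ι] [DecidableEq ι] (A D : Matrix ι ι ℂ), IsPair A D →
      Antitone fun m : ℕ => In α A D (2 * (m + 1)) / bet α (2 * (m + 1)) := by
    intro ι _ _ A D h
    apply antitone_nat_of_succ_le
    intro m
    have e1 := In_dec α (2 * (m + 1)) h0 (hα m) (hev m) A D h
    have e2 := bet_rec α (2 * (m + 1)) h0 (hα m)
    rw [div_le_div_iff₀ (hb (m + 1)) (hb m)]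
    have hn : 0 < ((2 * (m + 1) : ℕ) : ℝ) * (((2 * (m + 1) : ℕ) : ℝ) + 1) := by positivity
    have e3 : 2 * (m + 1 + 1) = 2 * (m + 1) + 2 := by ring
    rw [e3]
    have e4 := mul_le_mul_of_nonneg_right e1 (hb m).le
    have e5 : (((2 * (m + 1) : ℕ) : ℝ) - α) * (((2 * (m + 1) : ℕ) : ℝ) + 1 - α) *
        In α A D (2 * (m + 1)) * bet α (2 * (m + 1)) =
        (((2 * (m + 1) : ℕ) : ℝ) * (((2 * (m + 1) : ℕ) : ℝ) + 1)) *
          (In α A D (2 * (m + 1)) * bet α (2 * (m + 1) + 2)) := by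
      calc _ = In α A D (2 * (m + 1)) * ((((2 * (m + 1) : ℕ) : ℝ) - α) *
            (((2 * (m + 1) : ℕ) : ℝ) + 1 - α) * bet α (2 * (m + 1))) := by ring
        _ = In α A D (2 * (m + 1)) * ((((2 * (m + 1) : ℕ) : ℝ) *
            (((2 * (m + 1) : ℕ) : ℝ) + 1)) * bet α (2 * (m + 1) + 2)) := by rw [e2]
        _ = _ := by ring
    rw [e5, mul_assoc] at e4
    exact le_of_mul_le_mul_left e4 hn
  have hsum : ∀ {ι : Type} [Fintype ι] [DecidableEq ι] (A D : Matrix ι ι ℂ), IsPair A D →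
      HasSum (fun m : ℕ => bet α (2 * (m + 1)) / (2 * ((m : ℝ) + 1)) *
        (In α A D (2 * (m + 1)) / bet α (2 * (m + 1)))) (G α A D / c) := by
    intro ι _ _ A D h
    have h5 := hser ι A D h
    have h6 : (fun m : ℕ => bet α (2 * (m + 1)) / (2 * ((m : ℝ) + 1)) *
        (In α A D (2 * (m + 1)) / bet α (2 * (m + 1)))) =
        fun m : ℕ => In α A D (2 * (m + 1)) / (2 * ((m : ℝ) + 1)) := by
      funext m
      have := (hb m).ne'
      field_simp
    rw [h6]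
    exact h5
  have hone : HasSum (fun m : ℕ => bet α (2 * (m + 1)) / (2 * ((m : ℝ) + 1)))
      ((2 ^ (α - 1) - 1) / c) := by
    have := hser Unit 1 1 pair_one
    rw [G_one α h0] at this
    simpa only [In_one] using this
  have key := cheb (fun m : ℕ => bet α (2 * (m + 1)) / (2 * ((m : ℝ) + 1)))
    (fun m : ℕ => In α A₁ D₁ (2 * (m + 1)) / bet α (2 * (m + 1)))
    (fun m : ℕ => In α A₂ D₂ (2 * (m + 1)) / bet α (2 * (m + 1)))
    (fun m : ℕ => In α (A₁ ⊗ₖ A₂) (D₁ ⊗ₖ D₂) (2 * (m + 1)) / bet α (2 * (m + 1)))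
    (fun m => div_nonneg (hb m).le (by positivity)) (hanti A₁ D₁ h₁) (hanti A₂ D₂ h₂)
    (by
      intro m
      have e := cs_flag α (2 * (m + 1)) h0 (hα m) (hev m) A₁ D₁ h₁.pos hD₁ A₂ D₂ h₂.pos h₂.herm
      rw [div_mul_div_comm, div_le_div_iff₀ (mul_pos (hb m) (hb m)) (hb m)]
      calc In α A₁ D₁ (2 * (m + 1)) * In α A₂ D₂ (2 * (m + 1)) * bet α (2 * (m + 1))
          ≤ (bet α (2 * (m + 1)) * In α (A₁ ⊗ₖ A₂) (D₁ ⊗ₖ D₂) (2 * (m + 1))) *
            bet α (2 * (m + 1)) := mul_le_mul_of_nonneg_right e (hb m).le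
        _ = _ := by ring)
    _ _ _ _ (hsum A₁ D₁ h₁) (hsum A₂ D₂ h₂) (hsum _ _ (h₁.kron h₂)) hone
  rw [div_mul_div_comm, div_mul_div_comm, div_le_div_iff_of_pos_right] at key
  · exact key
  · exact mul_self_pos.2 hc0

end Pool.Agent.RC
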