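import Mathlib

/-!
# Rényi information combining (MP_859019_mp): common definitions

A pair is `(A, D)` with `A > 0` and `-A ≤ D ≤ A`.
-/

open scoped BigOperators ComplexOrder Kronecker MatrixOrder
open MeasureTheory Set Matrix

namespace Pool.Agent.RC

variable {ι κ : Type} [Fintype ι] [DecidableEq ι] [Fintype κ] [DecidableEq κ]

/-- `(A, D)` with `A` positive definite and `-A ≤ D ≤ A`. -/
structure IsPair (A D : Matrix ι ι ℂ) : Prop where
  pos : A.PosDef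
  sub : (A - D).PosSemidef
  add : (A + D).PosSemidef

/-- the resolvent `(A + r)⁻¹` -/
noncomputable def Res (A : Matrix ι ι ℂ) (r : ℝ) : Matrix ι ι ℂ :=
  (A + (r : ℂ) • (1 : Matrix ι ι ℂ))⁻¹

/-- `Tr [((A + r)⁻¹ D)^n]` -/
noncomputable def tn (A D : Matrix ι ι ℂ) (n : ℕ) (r : ℝ) : ℝ :=
  (((Res A r * D) ^ n).trace).re

/-- `∫ r^(α-1) Tr [((A + r)⁻¹ D)^n] dr` -/
noncomputable def In (α : ℝ) (A D : Matrix ι ι ℂ) (n : ℕ) : ℝ :=
  ∫ r in Ioi (0 : ℝ), r ^ (α - 1) * tn A D n r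

/-- `∫ r^(α-1) (1 + r)^(-n) dr` -/
noncomputable def bet (α : ℝ) (n : ℕ) : ℝ :=
  ∫ r in Ioi (0 : ℝ), r ^ (α - 1) * ((1 + r) ^ n)⁻¹

/-- `∑ f (eigenvalues)` -/
noncomputable def trF (f : ℝ → ℝ) (M : Matrix ι ι ℂ) : ℝ :=
  open Classical in if h : M.IsHermitian then ∑ i, f (h.eigenvalues i) else 0

/-- `½ Tr [(A + D)^α + (A - D)^α] - Tr A^α` -/
noncomputable def G (α : ℝ) (A D : Matrix ι ι ℂ) : ℝ :=
  (trF (fun x => x ^ α) (A + D) + trF (fun x => x ^ α) (A - D)) / 2 - trF (fun x => x ^ α) A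

/-- the entropic version at `α = 1` -/
noncomputable def G1 (A D : Matrix ι ι ℂ) : ℝ :=
  (trF (fun x => x * Real.log x) (A + D) + trF (fun x => x * Real.log x) (A - D)) / 2
    - trF (fun x => x * Real.log x) A

/-- `D = v v* - w w*`: at most one positive and at most one negative eigenvalue -/
def Sig11 (D : Matrix ι ι ℂ) : Prop :=
  ∃ v w : ι → ℂ, D = vecMulVec v (star v) - vecMulVec w (star w)

/-- scalar Stieltjes sums `∑ u_i / (a_i + s)` -/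
def ResForm (f : ℝ → ℝ) : Prop :=
  ∃ (K : ℕ) (a u : Fin K → ℝ), (∀ i, 0 < a i) ∧ (∀ i, 0 ≤ u i) ∧
    ∀ s, 0 ≤ s → f s = ∑ i, u i / (a i + s)

/-- positive root of `x² - (p - q) x - (p q - |z|²) = 0` -/
noncomputable def lam (p q : ℝ) (z : ℂ) : ℝ :=
  ((p - q) + Real.sqrt ((p + q) ^ 2 - 4 * ‖z‖ ^ 2)) / 2

/-- the bilinear form `v* (A + r)⁻¹ w` -/
noncomputable def form (A : Matrix ι ι ℂ) (v w : ι → ℂ) (r : ℝ) : ℂ :=
  star v ⬝ᵥ (Res A r *ᵥ w)

/-- diagonal matrix with real entries -/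
noncomputable def dg (c : κ → ℝ) : Matrix κ κ ℂ := Matrix.diagonal fun k => (c k : ℂ)

end Pool.Agent.RC
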