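import Pool.Agent.Lib_helper95.RC.Main02
import Pool.Agent.Lib_helper92.RC.Bridge

/-!
# The inequality for `α ∈ (0,2]`, positive semidefinite `A`, flagged `D₁`
-/

open scoped BigOperators ComplexOrder Kronecker MatrixOrder Topology
open MeasureTheory Set Matrix Filter

namespace Pool.Agent.RC

variable {ι κ : Type} [Fintype ι] [DecidableEq ι] [Fintype κ] [DecidableEq κ]

theorem Flag.shift {A D : Matrix ι ι ℂ} (h : Flag A D) (j : ℕ) : Flag (shift A j) D := by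
  obtain ⟨m, P, h1, h2, h3, h4, h5⟩ := h
  refine ⟨m, P, h1, h2, ?_, h4, h5⟩
  intro i
  unfold RC.shift
  rw [Matrix.mul_add, Matrix.add_mul, h3, Matrix.mul_smul, Matrix.smul_mul, Matrix.mul_one,
    Matrix.one_mul]

/-- positive semidefinite pairs -/
structure IsPsdPair (A D : Matrix ι ι ℂ) : Prop where
  pos : A.PosSemidef
  sub : (A - D).PosSemidef
  add : (A + D).PosSemidef

theorem IsPsdPair.herm {A D : Matrix ι ι ℂ} (h : IsPsdPair A D) : D.IsHermitian := by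
  have h1 : D = A - (A - D) := by abel
  rw [h1]
  exact h.pos.1.sub h.sub.1

theorem IsPsdPair.kron {A₁ D₁ : Matrix ι ι ℂ} {A₂ D₂ : Matrix κ κ ℂ} (h₁ : IsPsdPair A₁ D₁)
    (h₂ : IsPsdPair A₂ D₂) : IsPsdPair (A₁ ⊗ₖ A₂) (D₁ ⊗ₖ D₂) where
  pos := h₁.pos.kronecker h₂.pos
  sub := kron_sub_psd _ _ _ _ h₁.sub h₁.add h₂.sub h₂.add
  add := kron_add_psd _ _ _ _ h₁.sub h₁.add h₂.sub h₂.add

theorem final02_ne (α : ℝ) (h0 : 0 < α) (h2 : α < 2) (h1 : α ≠ 1)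
    (A₁ D₁ : Matrix ι ι ℂ) (h₁ : IsPsdPair A₁ D₁) (hf : Flag A₁ D₁)
    (A₂ D₂ : Matrix κ κ ℂ) (h₂ : IsPsdPair A₂ D₂) :
    G α A₁ D₁ * G α A₂ D₂ ≤ (2 ^ (α - 1) - 1) * G α (A₁ ⊗ₖ A₂) (D₁ ⊗ₖ D₂) := by
  apply le_of_tendsto_of_tendsto'
    ((tendsto_G_shift h0 h₁.pos.1 h₁.herm).mul (tendsto_G_shift h0 h₂.pos.1 h₂.herm))
    ((tendsto_G_shift_kron h0 h₁.pos.1 h₁.herm h₂.pos.1 h₂.herm).const_mul (2 ^ (α - 1) - 1))
  intro j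
  exact core02 α h0 h2 h1 (shift A₁ j) D₁ (isPair_shift h₁.pos h₁.sub h₁.add j) (hf.shift j)
    (shift A₂ j) D₂ (isPair_shift h₂.pos h₂.sub h₂.add j)

/-- continuity in the exponent -/
theorem tendsto_G_exp (A D : Matrix ι ι ℂ) (α₀ : ℝ) (h : 0 < α₀) :
    Tendsto (fun α => G α A D) (𝓝 α₀) (𝓝 (G α₀ A D)) := by
  have h1 : ∀ M : Matrix ι ι ℂ, Tendsto (fun α : ℝ => trF (fun x => x ^ α) M) (𝓝 α₀)
      (𝓝 (trF (fun x => x ^ α₀) M)) := by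
    intro M
    by_cases hM : M.IsHermitian
    · unfold trF
      simp only [dif_pos hM]
      exact tendsto_finsetSum _ fun i _ =>
        (Real.continuousAt_const_rpow' h.ne' : ContinuousAt (fun x => hM.eigenvalues i ^ x) α₀)
    · unfold trF
      simp only [dif_neg hM]
      exact tendsto_const_nhds
  unfold G
  exact (((h1 _).add (h1 _)).div_const 2).sub (h1 _)

theorem tendsto_L (α₀ : ℝ) : Tendsto (fun α : ℝ => (2 : ℝ) ^ (α - 1) - 1) (𝓝 α₀)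
    (𝓝 (2 ^ (α₀ - 1) - 1)) := by
  apply Tendsto.sub_const
  have : Continuous fun α : ℝ => (2 : ℝ) ^ (α - 1) := by
    apply Continuous.rpow continuous_const (by fun_prop)
    intro x; left; norm_num
  exact this.tendsto α₀

theorem final_two (A₁ D₁ : Matrix ι ι ℂ) (h₁ : IsPsdPair A₁ D₁) (hf : Flag A₁ D₁)
    (A₂ D₂ : Matrix κ κ ℂ) (h₂ : IsPsdPair A₂ D₂) :
    G 2 A₁ D₁ * G 2 A₂ D₂ ≤ (2 ^ ((2 : ℝ) - 1) - 1) * G 2 (A₁ ⊗ₖ A₂) (D₁ ⊗ₖ D₂) := by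
  have t1 : Tendsto (fun α => G α A₁ D₁ * G α A₂ D₂) (𝓝[<] 2) (𝓝 (G 2 A₁ D₁ * G 2 A₂ D₂)) :=
    ((tendsto_G_exp A₁ D₁ 2 (by norm_num)).mul
      (tendsto_G_exp A₂ D₂ 2 (by norm_num))).mono_left nhdsWithin_le_nhds
  have t2 : Tendsto (fun α => (2 ^ (α - 1) - 1) * G α (A₁ ⊗ₖ A₂) (D₁ ⊗ₖ D₂)) (𝓝[<] 2)
      (𝓝 ((2 ^ ((2 : ℝ) - 1) - 1) * G 2 (A₁ ⊗ₖ A₂) (D₁ ⊗ₖ D₂))) :=
    ((tendsto_L 2).mul (tendsto_G_exp _ _ 2 (by norm_num))).mono_left nhdsWithin_le_nhds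
  apply le_of_tendsto_of_tendsto t1 t2
  have hev : ∀ᶠ α : ℝ in 𝓝[<] 2, α ∈ Ioo (1 : ℝ) 2 := Ioo_mem_nhdsLT (by norm_num)
  filter_upwards [hev] with α hα
  exact final02_ne α (by linarith [hα.1]) hα.2 (ne_of_gt hα.1) A₁ D₁ h₁ hf A₂ D₂ h₂

theorem final_one (A₁ D₁ : Matrix ι ι ℂ) (h₁ : IsPsdPair A₁ D₁) (hf : Flag A₁ D₁)
    (A₂ D₂ : Matrix κ κ ℂ) (h₂ : IsPsdPair A₂ D₂) :
    G1 A₁ D₁ * G1 A₂ D₂ ≤ Real.log 2 * G1 (A₁ ⊗ₖ A₂) (D₁ ⊗ₖ D₂) := by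
  have hk := h₁.kron h₂
  have t1 := (tendsto_G1 A₁ D₁ h₁.pos h₁.sub h₁.add).mul
    (tendsto_G1 A₂ D₂ h₂.pos h₂.sub h₂.add)
  have tL : Tendsto (fun α : ℝ => ((2 : ℝ) ^ (α - 1) - 1) / (α - 1)) (𝓝[>] 1)
      (𝓝 (Real.log 2)) := by
    have h1 : HasDerivAt (fun α : ℝ => (2 : ℝ) ^ α) ((2 : ℝ) ^ (1 : ℝ) * Real.log 2) 1 := by
      have := (hasDerivAt_id (1 : ℝ)).const_rpow (by norm_num : (0 : ℝ) < 2)
      simpa [mul_comm] using this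
    have h3 : Tendsto (slope (fun α : ℝ => (2 : ℝ) ^ α) 1) (𝓝[>] 1)
        (𝓝 ((2 : ℝ) ^ (1 : ℝ) * Real.log 2)) :=
      h1.tendsto_slope.mono_left (nhdsWithin_mono _ fun y hy => ne_of_gt hy)
    have h4 := h3.const_mul (1 / 2)
    have e : 1 / 2 * ((2 : ℝ) ^ (1 : ℝ) * Real.log 2) = Real.log 2 := by
      rw [Real.rpow_one]; ring
    rw [e] at h4
    refine h4.congr fun α => ?_
    rw [slope_def_field, Real.rpow_one, Real.rpow_sub_one (by norm_num)]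
    ring
  have t2 := tL.mul (tendsto_G1 (A₁ ⊗ₖ A₂) (D₁ ⊗ₖ D₂) hk.pos hk.sub hk.add)
  apply le_of_tendsto_of_tendsto t1 t2
  have hev : ∀ᶠ α : ℝ in 𝓝[>] 1, α ∈ Ioo (1 : ℝ) 2 := Ioo_mem_nhdsGT (by norm_num)
  filter_upwards [hev] with α hα
  have h3 := final02_ne α (by linarith [hα.1]) hα.2 (ne_of_gt hα.1) A₁ D₁ h₁ hf A₂ D₂ h₂
  have h4 : 0 < α - 1 := by linarith [hα.1]
  rw [div_mul_div_comm, div_mul_div_comm]
  exact div_le_div_of_nonneg_right h3 (by positivity)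

end Pool.Agent.RC
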