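import Pool.Agent.Lib_helper95.RC.Defs

/-!
# Definitions for the range `α ∈ (2,4)`
-/

open scoped BigOperators ComplexOrder Kronecker MatrixOrder
open MeasureTheory Set Matrix

namespace Pool.Agent.RC

variable {ι κ : Type} [Fintype ι] [DecidableEq ι] [Fintype κ] [DecidableEq κ]

/-- `2 Tr[K²H²] + Tr[KHKH]` with `K = (A + r)⁻¹ A`, `H = (A + r)⁻¹ D` -/
noncomputable def j2 (A D : Matrix ι ι ℂ) (r : ℝ) : ℝ :=
  2 * (((Res A r * A) * (Res A r * A) * (Res A r * D) * (Res A r * D)).trace).re +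
    (((Res A r * A) * (Res A r * D) * (Res A r * A) * (Res A r * D)).trace).re

/-- `T₂ = (∫ r^(α-1) j2 dr) / (3 bet α 4)`; for `A = dg a`, `D = E` it is
`∑ |E i j|² (a i ^ (α-1) - a j ^ (α-1)) / ((α-1) (a i - a j))`, for `A = D = 1` it is `1` -/
noncomputable def T2 (α : ℝ) (A D : Matrix ι ι ℂ) : ℝ :=
  (∫ r in Ioi (0 : ℝ), r ^ (α - 1) * j2 A D r) / (3 * bet α 4)

/-- `∫_0^1 (t x + (1-t) y)^(α-2) dt = (x^(α-1) - y^(α-1)) / ((α-1) (x - y))` -/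
noncomputable def hk (α x y : ℝ) : ℝ :=
  ∫ t in (0 : ℝ)..1, (t * x + (1 - t) * y) ^ (α - 2)

end Pool.Agent.RC
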