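import Pool.Agent.Lib_helper98.RC.T2
import Pool.Agent.Lib_helper92.RC.Ser24b
import Pool.Agent.Lib_helper95.RC.Main02

/-!
# Block MAIN24: `α ∈ (2,4)`
-/

open scoped BigOperators ComplexOrder Kronecker MatrixOrder Topology
open MeasureTheory Set Matrix Filter

namespace Pool.Agent.RC

variable {ι κ : Type} [Fintype ι] [DecidableEq ι] [Fintype κ] [DecidableEq κ]

/-- the reversed inequality: one positive and then only negative coefficients -/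
theorem rev_ineq (C₂ X₀ Y₀ Z₀ L G₁ G₂ G₁₂ : ℝ) (c X Y Z : ℕ → ℝ) (hc : ∀ m, 0 ≤ c m)
    (hL : 0 ≤ L) (hC₂ : 0 ≤ C₂) (hs : HasSum c (C₂ - L))
    (hX : HasSum (fun m => c m * X m) (C₂ * X₀ - G₁))
    (hY : HasSum (fun m => c m * Y m) (C₂ * Y₀ - G₂))
    (hZ : HasSum (fun m => c m * Z m) (C₂ * Z₀ - G₁₂))
    (hX₀ : ∀ m, X m ≤ X₀) (hY₀ : ∀ m, Y m ≤ Y₀) (hXY : ∀ m, X m * Y m ≤ Z m)
    (h₀ : Z₀ ≤ X₀ * Y₀) : L * G₁₂ ≤ G₁ * G₂ := by
  have ha : 0 ≤ G₁ - L * X₀ := by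
    have h1 : HasSum (fun m => c m * X₀ - c m * X m) ((C₂ - L) * X₀ - (C₂ * X₀ - G₁)) :=
      (hs.mul_right X₀).sub hX
    have h2 := h1.nonneg fun m => by
      rw [← mul_sub]
      exact mul_nonneg (hc m) (sub_nonneg.2 (hX₀ m))
    linarith
  have hb : 0 ≤ G₂ - L * Y₀ := by
    have h1 : HasSum (fun m => c m * Y₀ - c m * Y m) ((C₂ - L) * Y₀ - (C₂ * Y₀ - G₂)) :=
      (hs.mul_right Y₀).sub hY
    have h2 := h1.nonneg fun m => by
      rw [← mul_sub]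
      exact mul_nonneg (hc m) (sub_nonneg.2 (hY₀ m))
    linarith
  have hS : HasSum (fun m => c m * (X₀ * Y₀) - (c m * Y m) * X₀ - (c m * X m) * Y₀ + c m * Z m)
      ((C₂ - L) * (X₀ * Y₀) - (C₂ * Y₀ - G₂) * X₀ - (C₂ * X₀ - G₁) * Y₀ + (C₂ * Z₀ - G₁₂)) :=
    (((hs.mul_right (X₀ * Y₀)).sub (hY.mul_right X₀)).sub (hX.mul_right Y₀)).add hZ
  have h3 := hS.nonneg fun m => by
    have h4 : 0 ≤ c m * ((X₀ - X m) * (Y₀ - Y m)) :=
      mul_nonneg (hc m) (mul_nonneg (sub_nonneg.2 (hX₀ m)) (sub_nonneg.2 (hY₀ m)))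
    have h5 : 0 ≤ c m * (Z m - X m * Y m) := mul_nonneg (hc m) (sub_nonneg.2 (hXY m))
    have h6 : c m * (X₀ * Y₀) - (c m * Y m) * X₀ - (c m * X m) * Y₀ + c m * Z m =
        c m * ((X₀ - X m) * (Y₀ - Y m)) + c m * (Z m - X m * Y m) := by ring
    rw [h6]
    exact add_nonneg h4 h5
  have h7 : G₁₂ ≤ X₀ * G₂ + Y₀ * G₁ - L * (X₀ * Y₀) := by
    have h8 : 0 ≤ C₂ * (X₀ * Y₀ - Z₀) := mul_nonneg hC₂ (sub_nonneg.2 h₀)
    linarith
  have h9 := mul_le_mul_of_nonneg_left h7 hL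
  have h10 := mul_nonneg ha hb
  linarith

theorem hk_one (α : ℝ) : hk α 1 1 = 1 := by
  unfold hk
  have : ∀ t : ℝ, (t * 1 + (1 - t) * 1) ^ (α - 2) = 1 := by
    intro t
    have : t * 1 + (1 - t) * 1 = 1 := by ring
    rw [this, Real.one_rpow]
  simp only [this]
  simp

theorem T2_one (α : ℝ) (h0 : 0 < α) (h4 : α < 4) : T2 α (1 : Matrix Unit Unit ℂ) 1 = 1 := by
  have h := T2_dg α h0 h4 (fun _ : Unit => (1 : ℝ)) (fun _ => one_pos) 1 Matrix.isHermitian_one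
  rw [dg_one] at h
  rw [h]
  simp [hk_one]

/-- antitone ratios -/
theorem ratio_succ_le (α : ℝ) (A D : Matrix ι ι ℂ) (h : IsPair A D) (h0 : 0 < α) (n : ℕ)
    (hα : α < n) (hn : Even n) : In α A D (n + 2) / bet α (n + 2) ≤ In α A D n / bet α n := by
  have hα' : α < ((n + 2 : ℕ) : ℝ) := by push_cast; linarith
  have hb := bet_pos α n h0 hα
  have hb' := bet_pos α (n + 2) h0 hα'
  have e1 := In_dec α n h0 hα hn A D h
  have e2 := bet_rec α n h0 hα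
  rw [div_le_div_iff₀ hb' hb]
  have hn0 : 0 < (n : ℝ) := h0.trans hα
  have hn' : 0 < (n : ℝ) * ((n : ℝ) + 1) := by positivity
  have e4 := mul_le_mul_of_nonneg_right e1 hb.le
  have e5 : ((n : ℝ) - α) * ((n : ℝ) + 1 - α) * In α A D n * bet α n =
      ((n : ℝ) * ((n : ℝ) + 1)) * (In α A D n * bet α (n + 2)) := by
    calc _ = In α A D n * (((n : ℝ) - α) * ((n : ℝ) + 1 - α) * bet α n) := by ring
      _ = In α A D n * (((n : ℝ) * ((n : ℝ) + 1)) * bet α (n + 2)) := by rw [e2]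
      _ = _ := by ring
  rw [e5, mul_assoc] at e4
  exact le_of_mul_le_mul_left e4 hn'

/-- the sequence `T₂, T₄, T₆, ...` -/
noncomputable def Ts (α : ℝ) (A D : Matrix ι ι ℂ) : ℕ → ℝ
  | 0 => T2 α A D
  | m + 1 => In α A D (2 * (m + 2)) / bet α (2 * (m + 2))

theorem Ts_anti (α : ℝ) (h0 : 0 < α) (h4 : α < 4) (A D : Matrix ι ι ℂ) (h : IsPair A D) :
    Antitone (Ts α A D) := by
  apply antitone_nat_of_succ_le
  intro m
  rcases m with _ | m
  · exact In4_le_T2 α h0 h4 A D h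
  · show In α A D (2 * (m + 1 + 2)) / bet α (2 * (m + 1 + 2)) ≤
      In α A D (2 * (m + 2)) / bet α (2 * (m + 2))
    have e : 2 * (m + 1 + 2) = 2 * (m + 2) + 2 := by ring
    rw [e]
    apply ratio_succ_le α A D h h0 _ _ (even_two_mul _)
    push_cast
    have : (0 : ℝ) ≤ m := Nat.cast_nonneg m
    linarith

theorem core24 (α : ℝ) (h2 : 2 < α) (h4 : α < 4) (h3 : α ≠ 3)
    (A₁ D₁ : Matrix ι ι ℂ) (h₁ : IsPair A₁ D₁) (hD₁ : Flag A₁ D₁)
    (A₂ D₂ : Matrix κ κ ℂ) (h₂ : IsPair A₂ D₂) :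
    (3 < α → G α A₁ D₁ * G α A₂ D₂ ≤ (2 ^ (α - 1) - 1) * G α (A₁ ⊗ₖ A₂) (D₁ ⊗ₖ D₂)) ∧
    (α < 3 → (2 ^ (α - 1) - 1) * G α (A₁ ⊗ₖ A₂) (D₁ ⊗ₖ D₂) ≤ G α A₁ D₁ * G α A₂ D₂) := by
  obtain ⟨c, hc, hser⟩ := series24 α h2 h4 h3
  have h0 : 0 < α := by linarith
  have hc0 : c ≠ 0 := by
    rintro rfl
    simp at hc
  have hα : ∀ m : ℕ, α < ((2 * (m + 2) : ℕ) : ℝ) := by
    intro m
    push_cast
    have : (0 : ℝ) ≤ m := Nat.cast_nonneg m
    linarith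
  have hev : ∀ m : ℕ, Even (2 * (m + 2)) := fun m => even_two_mul _
  have hb : ∀ m : ℕ, 0 < bet α (2 * (m + 2)) := fun m => bet_pos α _ h0 (hα m)
  set w : ℕ → ℝ := fun m => c * (bet α (2 * (m + 2)) / (2 * ((m : ℝ) + 2))) with hw
  set C₂ : ℝ := α * (α - 1) / 2 with hC₂
  have hC₂0 : 0 ≤ C₂ := by
    rw [hC₂]
    have : 0 ≤ α - 1 := by linarith
    positivity
  have hsum : ∀ {ι : Type} [Fintype ι] [DecidableEq ι] (A D : Matrix ι ι ℂ), IsPair A D →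
      HasSum (fun m : ℕ => w m * Ts α A D (m + 1)) (G α A D - C₂ * T2 α A D) := by
    intro ι _ _ A D h
    have h5 := (hser ι A D h).mul_left c
    rw [mul_div_cancel₀ _ hc0] at h5
    have h6 : (fun m : ℕ => w m * Ts α A D (m + 1)) =
        fun m : ℕ => c * (In α A D (2 * (m + 2)) / (2 * ((m : ℝ) + 2))) := by
      funext m
      have := (hb m).ne'
      show c * (bet α (2 * (m + 2)) / (2 * ((m : ℝ) + 2))) *
        (In α A D (2 * (m + 2)) / bet α (2 * (m + 2))) = _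
      field_simp
    rw [h6]
    exact h5
  have hone : HasSum w ((2 ^ (α - 1) - 1) - C₂) := by
    have h5 := hsum 1 1 pair_one
    rw [G_one α h0, T2_one α h0 h4, mul_one] at h5
    have h6 : (fun m : ℕ => w m * Ts α (1 : Matrix Unit Unit ℂ) 1 (m + 1)) = w := by
      funext m
      show w m * (In α (1 : Matrix Unit Unit ℂ) 1 (2 * (m + 2)) / bet α (2 * (m + 2))) = w m
      rw [In_one, div_self (hb m).ne', mul_one]
    rw [h6] at h5
    exact h5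
  have hprod : ∀ m : ℕ, Ts α A₁ D₁ (m + 1) * Ts α A₂ D₂ (m + 1) ≤
      Ts α (A₁ ⊗ₖ A₂) (D₁ ⊗ₖ D₂) (m + 1) := by
    intro m
    have e := cs_flag α (2 * (m + 2)) h0 (hα m) (hev m) A₁ D₁ h₁.pos hD₁ A₂ D₂ h₂.pos h₂.herm
    show In α A₁ D₁ (2 * (m + 2)) / bet α (2 * (m + 2)) *
      (In α A₂ D₂ (2 * (m + 2)) / bet α (2 * (m + 2))) ≤
      In α (A₁ ⊗ₖ A₂) (D₁ ⊗ₖ D₂) (2 * (m + 2)) / bet α (2 * (m + 2))
    rw [div_mul_div_comm, div_le_div_iff₀ (mul_pos (hb m) (hb m)) (hb m)]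
    calc In α A₁ D₁ (2 * (m + 2)) * In α A₂ D₂ (2 * (m + 2)) * bet α (2 * (m + 2))
        ≤ (bet α (2 * (m + 2)) * In α (A₁ ⊗ₖ A₂) (D₁ ⊗ₖ D₂) (2 * (m + 2))) *
          bet α (2 * (m + 2)) := mul_le_mul_of_nonneg_right e (hb m).le
      _ = _ := by ring
  constructor
  · intro h3'
    have hcpos : 0 < c := by
      rcases pos_and_pos_or_neg_and_neg_of_mul_pos hc with h | h
      · exact h.1
      · linarith [h.2]
    -- full sequences
    set W : ℕ → ℝ := fun m => Nat.casesOn m C₂ w with hW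
    have hWs : ∀ (T : ℕ → ℝ) (s : ℝ), HasSum (fun m => w m * T (m + 1)) s →
        HasSum (fun m => W m * T m) (C₂ * T 0 + s) := by
      intro T s hs
      have h5 := (hasSum_nat_add_iff (f := fun m => W m * T m) 1).1 hs
      rw [Finset.sum_range_one, add_comm] at h5
      exact h5
    have hW1 : HasSum W (2 ^ (α - 1) - 1) := by
      have := hWs (fun _ => 1) ((2 ^ (α - 1) - 1) - C₂) (by simpa using hone)
      simp only [mul_one] at this
      have e : C₂ + (2 ^ (α - 1) - 1 - C₂) = (2 : ℝ) ^ (α - 1) - 1 := by ring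
      rwa [e] at this
    have hWT : ∀ {ι : Type} [Fintype ι] [DecidableEq ι] (A D : Matrix ι ι ℂ), IsPair A D →
        HasSum (fun m : ℕ => W m * Ts α A D m) (G α A D) := by
      intro ι _ _ A D h
      have h5 := hWs (Ts α A D) _ (hsum A D h)
      have e : C₂ * Ts α A D 0 + (G α A D - C₂ * T2 α A D) = G α A D := by
        show C₂ * T2 α A D + (G α A D - C₂ * T2 α A D) = G α A D
        ring
      rwa [e] at h5
    have hW0 : ∀ m, 0 ≤ W m := by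
      intro m
      rcases m with _ | m
      · exact hC₂0
      · show 0 ≤ c * (bet α (2 * (m + 2)) / (2 * ((m : ℝ) + 2)))
        have := (hb m).le
        positivity
    apply cheb W (Ts α A₁ D₁) (Ts α A₂ D₂) (Ts α (A₁ ⊗ₖ A₂) (D₁ ⊗ₖ D₂)) hW0
      (Ts_anti α h0 h4 A₁ D₁ h₁) (Ts_anti α h0 h4 A₂ D₂ h₂) _ _ _ _ _ (hWT A₁ D₁ h₁)
      (hWT A₂ D₂ h₂) (hWT _ _ (h₁.kron h₂)) hW1
    intro m
    rcases m with _ | m
    · exact T2_kron_ge α h3'.le h4 A₁ D₁ A₂ D₂ h₁.pos h₁.herm h₂.pos h₂.herm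
    · exact hprod m
  · intro h3'
    have hcneg : c < 0 := by
      rcases pos_and_pos_or_neg_and_neg_of_mul_pos hc with h | h
      · linarith [h.2]
      · exact h.1
    have hneg : ∀ (T : ℕ → ℝ) (s : ℝ), HasSum (fun m => w m * T m) s →
        HasSum (fun m => (-w m) * T m) (-s) := by
      intro T s hs
      have := hs.neg
      simpa only [neg_mul] using this
    have hs1 : HasSum (fun m => -w m) (C₂ - (2 ^ (α - 1) - 1)) := by
      have := hone.neg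
      rwa [neg_sub] at this
    have hT : ∀ {ι : Type} [Fintype ι] [DecidableEq ι] (A D : Matrix ι ι ℂ), IsPair A D →
        HasSum (fun m : ℕ => (-w m) * Ts α A D (m + 1)) (C₂ * T2 α A D - G α A D) := by
      intro ι _ _ A D h
      have h5 := hneg (fun m => Ts α A D (m + 1)) _ (hsum A D h)
      rwa [neg_sub] at h5
    apply rev_ineq C₂ (T2 α A₁ D₁) (T2 α A₂ D₂) (T2 α (A₁ ⊗ₖ A₂) (D₁ ⊗ₖ D₂)) (2 ^ (α - 1) - 1)
      (G α A₁ D₁) (G α A₂ D₂) (G α (A₁ ⊗ₖ A₂) (D₁ ⊗ₖ D₂)) (fun m => -w m)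
      (fun m => Ts α A₁ D₁ (m + 1)) (fun m => Ts α A₂ D₂ (m + 1))
      (fun m => Ts α (A₁ ⊗ₖ A₂) (D₁ ⊗ₖ D₂) (m + 1))
    · intro m
      show 0 ≤ -(c * (bet α (2 * (m + 2)) / (2 * ((m : ℝ) + 2))))
      have h5 : 0 ≤ bet α (2 * (m + 2)) / (2 * ((m : ℝ) + 2)) := by
        have := (hb m).le
        positivity
      have h6 := mul_nonneg (neg_nonneg.2 hcneg.le) h5
      linarith
    · have : (1 : ℝ) ≤ 2 ^ (α - 1) := Real.one_le_rpow (by norm_num) (by linarith)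
      linarith
    · exact hC₂0
    · exact hs1
    · exact hT A₁ D₁ h₁
    · exact hT A₂ D₂ h₂
    · exact hT _ _ (h₁.kron h₂)
    · intro m
      exact Ts_anti α h0 h4 A₁ D₁ h₁ (Nat.zero_le (m + 1))
    · intro m
      exact Ts_anti α h0 h4 A₂ D₂ h₂ (Nat.zero_le (m + 1))
    · exact hprod
    · exact T2_kron_le α h2.le h3'.le A₁ D₁ A₂ D₂ h₁.pos h₁.herm h₂.pos h₂.herm

end Pool.Agent.RC
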