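import Pool.Agent.Lib_helper95.RC.Cs

/-!
# The inequality (CS) for flagged mixtures
-/

open scoped BigOperators ComplexOrder Kronecker MatrixOrder Topology
open MeasureTheory Set Matrix Filter

namespace Pool.Agent.RC

variable {ι κ : Type} [Fintype ι] [DecidableEq ι] [Fintype κ] [DecidableEq κ]

/-- `D` is a flagged sum of matrices `v v* - w w*`, the flags commuting with `A` -/
def Flag (A D : Matrix ι ι ℂ) : Prop :=
  ∃ (m : ℕ) (P : Fin m → Matrix ι ι ℂ), (∀ i, P i * P i = P i) ∧ ∑ i, P i = 1 ∧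
    (∀ i, P i * A = A * P i) ∧ (∀ i, P i * D = D * P i) ∧ ∀ i, Sig11 (P i * D)

theorem Sig11.flag (A D : Matrix ι ι ℂ) (h : Sig11 D) : Flag A D := by
  refine ⟨1, fun _ => 1, fun _ => Matrix.one_mul 1, ?_, ?_, ?_, ?_⟩
  · simp
  · intro i; rw [Matrix.one_mul, Matrix.mul_one]
  · intro i; rw [Matrix.one_mul, Matrix.mul_one]
  · intro i; rw [Matrix.one_mul]; exact h

theorem res_comm (A P : Matrix ι ι ℂ) (hA : A.PosDef) (h : P * A = A * P) (r : ℝ) (hr : 0 ≤ r) :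
    P * Res A r = Res A r * P := by
  have hpd : (A + (r : ℂ) • (1 : Matrix ι ι ℂ)).PosDef := by
    apply hA.add_posSemidef
    apply Matrix.PosSemidef.smul Matrix.PosSemidef.one
    exact_mod_cast hr
  have hdet : IsUnit (A + (r : ℂ) • (1 : Matrix ι ι ℂ)).det :=
    (Matrix.isUnit_iff_isUnit_det _).1 hpd.isUnit
  have h1 : P * (A + (r : ℂ) • (1 : Matrix ι ι ℂ)) = (A + (r : ℂ) • (1 : Matrix ι ι ℂ)) * P := by
    rw [Matrix.mul_add, Matrix.add_mul, h, Matrix.mul_smul, Matrix.smul_mul, Matrix.mul_one,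
      Matrix.one_mul]
  unfold Res
  set B := A + (r : ℂ) • (1 : Matrix ι ι ℂ) with hB
  calc P * B⁻¹ = (B⁻¹ * B) * P * B⁻¹ := by rw [Matrix.nonsing_inv_mul _ hdet, Matrix.one_mul]
    _ = B⁻¹ * (B * P) * B⁻¹ := by noncomm_ring
    _ = B⁻¹ * (P * B) * B⁻¹ := by rw [h1]
    _ = B⁻¹ * P * (B * B⁻¹) := by noncomm_ring
    _ = B⁻¹ * P := by rw [Matrix.mul_nonsing_inv _ hdet, Matrix.mul_one]

theorem pow_flag (P M : Matrix ι ι ℂ) (hP : P * P = P) (h : P * M = M * P) (n : ℕ) (hn : 0 < n) :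
    (P * M) ^ n = P * M ^ n := by
  obtain ⟨k, rfl⟩ : ∃ k, n = k + 1 := ⟨n - 1, by omega⟩
  have hc : Commute P M := h
  rw [hc.mul_pow]
  congr 1
  induction k with
  | zero => simp
  | succ k ih => rw [pow_succ, ih (by omega), hP]

theorem tn_flag (A D : Matrix ι ι ℂ) (hA : A.PosDef) {m : ℕ} (P : Fin m → Matrix ι ι ℂ)
    (h1 : ∀ i, P i * P i = P i) (h2 : ∑ i, P i = 1) (h3 : ∀ i, P i * A = A * P i)
    (h4 : ∀ i, P i * D = D * P i) (n : ℕ) (hn : 0 < n) (r : ℝ) (hr : 0 ≤ r) :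
    tn A D n r = ∑ i, tn A (P i * D) n r := by
  have e : ∀ i, (Res A r * (P i * D)) ^ n = P i * (Res A r * D) ^ n := by
    intro i
    have hc := res_comm A (P i) hA (h3 i) r hr
    have e1 : Res A r * (P i * D) = P i * (Res A r * D) := by
      rw [← Matrix.mul_assoc, ← hc, Matrix.mul_assoc]
    rw [e1]
    apply pow_flag _ _ (h1 i) _ n hn
    rw [← Matrix.mul_assoc, hc, Matrix.mul_assoc, h4 i, Matrix.mul_assoc]
  unfold tn
  rw [← Complex.re_sum]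
  congr 1
  rw [← Matrix.trace_sum]
  congr 1
  calc (Res A r * D) ^ n = 1 * (Res A r * D) ^ n := (Matrix.one_mul _).symm
    _ = ∑ i, P i * (Res A r * D) ^ n := by rw [← h2, Finset.sum_mul]
    _ = ∑ i, (Res A r * (P i * D)) ^ n := Finset.sum_congr rfl fun i _ => (e i).symm

theorem In_flag (α : ℝ) (A D : Matrix ι ι ℂ) (hA : A.PosDef) {m : ℕ} (P : Fin m → Matrix ι ι ℂ)
    (h1 : ∀ i, P i * P i = P i) (h2 : ∑ i, P i = 1) (h3 : ∀ i, P i * A = A * P i)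
    (h4 : ∀ i, P i * D = D * P i) (n : ℕ) (h0 : 0 < α) (hα : α < n) :
    In α A D n = ∑ i, In α A (P i * D) n := by
  have hn : 0 < n := by
    rcases Nat.eq_zero_or_pos n with h | h
    · subst h; norm_num at hα; linarith
    · exact h
  unfold In
  rw [← integral_finsetSum _ fun i _ => integrableOn_tn α A (P i * D) hA n h0 hα]
  apply setIntegral_congr_fun measurableSet_Ioi
  intro r hr
  have hr0 : (0 : ℝ) < r := hr
  show r ^ (α - 1) * tn A D n r = ∑ i, r ^ (α - 1) * tn A (P i * D) n r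
  rw [tn_flag A D hA P h1 h2 h3 h4 n hn r hr0.le, Finset.mul_sum]

theorem cs_flag (α : ℝ) (n : ℕ) (h0 : 0 < α) (hα : α < n) (hn : Even n)
    (A₁ D₁ : Matrix ι ι ℂ) (hA₁ : A₁.PosDef) (hD₁ : Flag A₁ D₁)
    (A₂ D₂ : Matrix κ κ ℂ) (hA₂ : A₂.PosDef) (hD₂ : D₂.IsHermitian) :
    In α A₁ D₁ n * In α A₂ D₂ n ≤ bet α n * In α (A₁ ⊗ₖ A₂) (D₁ ⊗ₖ D₂) n := by
  obtain ⟨m, P, h1, h2, h3, h4, h5⟩ := hD₁
  have e1 : ∀ i, (P i ⊗ₖ (1 : Matrix κ κ ℂ)) * (D₁ ⊗ₖ D₂) = (P i * D₁) ⊗ₖ D₂ := by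
    intro i
    rw [← Matrix.mul_kronecker_mul, Matrix.one_mul]
  rw [In_flag α A₁ D₁ hA₁ P h1 h2 h3 h4 n h0 hα,
    In_flag α (A₁ ⊗ₖ A₂) (D₁ ⊗ₖ D₂) (hA₁.kronecker hA₂) (fun i => P i ⊗ₖ (1 : Matrix κ κ ℂ))
      (by intro i; rw [← Matrix.mul_kronecker_mul, h1, Matrix.one_mul])
      (by
        have : ∑ i, P i ⊗ₖ (1 : Matrix κ κ ℂ) = (∑ i, P i) ⊗ₖ (1 : Matrix κ κ ℂ) := by
          ext a b
          simp only [Matrix.sum_apply, Matrix.kroneckerMap_apply, Finset.sum_mul]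
        rw [this, h2, Matrix.one_kronecker_one])
      (by intro i; rw [← Matrix.mul_kronecker_mul, ← Matrix.mul_kronecker_mul, h3,
            Matrix.one_mul, Matrix.mul_one])
      (by intro i; rw [← Matrix.mul_kronecker_mul, ← Matrix.mul_kronecker_mul, h4,
            Matrix.one_mul, Matrix.mul_one]) n h0 hα, Finset.sum_mul, Finset.mul_sum]
  apply Finset.sum_le_sum
  intro i _
  rw [e1 i]
  exact cs_sig α n h0 hα hn A₁ (P i * D₁) hA₁ (h5 i) A₂ D₂ hA₂ hD₂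

end Pool.Agent.RC
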