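import Pool.Agent.Lib_helper95.RC.Final24
import Pool.Agent.Lib_helper98.RenyiConvex
import Pool.Agent.Lib_helper33.RC_Bridge2

/-!
# The state-level theorem
-/

open scoped BigOperators ComplexOrder Kronecker MatrixOrder Topology
open MeasureTheory Set Matrix Filter

namespace Pool.Agent.RC

open Pool.Agent.Lib_helper98.Renyi

variable {ι κ : Type} [Fintype ι] [DecidableEq ι] [Fintype κ] [DecidableEq κ]

theorem psdPair_state {σ : Fin 2 → Matrix ι ι ℂ} (h : ∀ x, IsDensity (σ x)) {α : ℝ}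
    (hα : 0 < α) : IsPsdPair (Aop α σ) (Dop α σ) where
  pos := Aop_posSemidef h α
  sub := A_sub_D_posSemidef h hα
  add := A_add_D_posSemidef h hα

theorem psdPair_state_one {σ : Fin 2 → Matrix ι ι ℂ} (h : ∀ x, IsDensity (σ x)) :
    IsPsdPair (rhoOf σ) (delOf σ) where
  pos := rhoOf_posSemidef h
  sub := by rw [rho_sub_del]; exact (h 1).1
  add := by rw [rho_add_del]; exact (h 0).1

theorem IsPsdPair.Gfun_eq {A D : Matrix ι ι ℂ} (h : IsPsdPair A D) {α : ℝ} (hα : 0 < α) :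
    Gfun α A D = G α A D :=
  (G_eq_Gfun hα h.pos.1 h.add.1 h.sub.1).symm

theorem IsPsdPair.GfunOne_eq {A D : Matrix ι ι ℂ} (h : IsPsdPair A D) :
    GfunOne A D = G1 A D :=
  (G1_eq_GfunOne h.pos.1 h.add.1 h.sub.1).symm

/-- exchange of the two tensor factors -/
theorem G_swap (α : ℝ) (A₁ D₁ : Matrix ι ι ℂ) (A₂ D₂ : Matrix κ κ ℂ) :
    G α (A₂ ⊗ₖ A₁) (D₂ ⊗ₖ D₁) = G α (A₁ ⊗ₖ A₂) (D₁ ⊗ₖ D₂) := by
  have e : ∀ (X : Matrix ι ι ℂ) (Y : Matrix κ κ ℂ), Matrix.reindex (Equiv.prodComm ι κ)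
      (Equiv.prodComm ι κ) (X ⊗ₖ Y) = Y ⊗ₖ X := by
    intro X Y
    ext i j
    simp [Matrix.kroneckerMap_apply, mul_comm]
  have e1 : Matrix.reindex (Equiv.prodComm ι κ) (Equiv.prodComm ι κ)
      (A₁ ⊗ₖ A₂ + D₁ ⊗ₖ D₂) = A₂ ⊗ₖ A₁ + D₂ ⊗ₖ D₁ := by
    rw [← e, ← e]; rfl
  have e2 : Matrix.reindex (Equiv.prodComm ι κ) (Equiv.prodComm ι κ)
      (A₁ ⊗ₖ A₂ - D₁ ⊗ₖ D₂) = A₂ ⊗ₖ A₁ - D₂ ⊗ₖ D₁ := by
    rw [← e, ← e]; rfl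
  unfold G
  rw [← e1, ← e2, ← e A₁ A₂, trF_reindex, trF_reindex, trF_reindex]

theorem G1_swap (A₁ D₁ : Matrix ι ι ℂ) (A₂ D₂ : Matrix κ κ ℂ) :
    G1 (A₂ ⊗ₖ A₁) (D₂ ⊗ₖ D₁) = G1 (A₁ ⊗ₖ A₂) (D₁ ⊗ₖ D₂) := by
  have e : ∀ (X : Matrix ι ι ℂ) (Y : Matrix κ κ ℂ), Matrix.reindex (Equiv.prodComm ι κ)
      (Equiv.prodComm ι κ) (X ⊗ₖ Y) = Y ⊗ₖ X := by
    intro X Y
    ext i j
    simp [Matrix.kroneckerMap_apply, mul_comm]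
  have e1 : Matrix.reindex (Equiv.prodComm ι κ) (Equiv.prodComm ι κ)
      (A₁ ⊗ₖ A₂ + D₁ ⊗ₖ D₂) = A₂ ⊗ₖ A₁ + D₂ ⊗ₖ D₁ := by
    rw [← e, ← e]; rfl
  have e2 : Matrix.reindex (Equiv.prodComm ι κ) (Equiv.prodComm ι κ)
      (A₁ ⊗ₖ A₂ - D₁ ⊗ₖ D₂) = A₂ ⊗ₖ A₁ - D₂ ⊗ₖ D₁ := by
    rw [← e, ← e]; rfl
  unfold G1
  rw [← e1, ← e2, ← e A₁ A₂, trF_reindex, trF_reindex, trF_reindex]

theorem state_le {σ₁ : Fin 2 → Matrix ι ι ℂ} {σ₂ : Fin 2 → Matrix κ κ ℂ}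
    (h₁ : ∀ x, IsDensity (σ₁ x)) (h₂ : ∀ x, IsDensity (σ₂ x))
    (hf : FlaggedRankTwo σ₁ ∨ FlaggedRankTwo σ₂) (α : ℝ)
    (hα : (0 < α ∧ α ≤ 2) ∨ (3 ≤ α ∧ α ≤ 4)) : Hsum α σ₁ σ₂ ≤ Fval α σ₁ σ₂ := by
  have h0 : 0 < α := by
    rcases hα with h | h
    · exact h.1
    · linarith [h.1]
  by_cases h1 : α = 1
  · subst h1
    have p₁ := psdPair_state_one h₁
    have p₂ := psdPair_state_one h₂
    apply Hsum_le_Fval_one h₁ h₂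
    rw [p₁.GfunOne_eq, p₂.GfunOne_eq, (p₁.kron p₂).GfunOne_eq]
    rcases hf with hf | hf
    · exact final_one _ _ p₁ (flag_state_one hf) _ _ p₂
    · have := final_one _ _ p₂ (flag_state_one hf) _ _ p₁
      rwa [G1_swap, mul_comm (G1 _ _)] at this
  · have p₁ := psdPair_state h₁ h0
    have p₂ := psdPair_state h₂ h0
    apply Hsum_le_Fval h₁ h₂ h0 h1
    rw [p₁.Gfun_eq h0, p₂.Gfun_eq h0, (p₁.kron p₂).Gfun_eq h0]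
    have key : ∀ {ι κ : Type} [Fintype ι] [DecidableEq ι] [Fintype κ] [DecidableEq κ]
        (A₁ D₁ : Matrix ι ι ℂ) (_ : IsPsdPair A₁ D₁) (_ : Flag A₁ D₁)
        (A₂ D₂ : Matrix κ κ ℂ) (_ : IsPsdPair A₂ D₂),
        G α A₁ D₁ * G α A₂ D₂ ≤ (2 ^ (α - 1) - 1) * G α (A₁ ⊗ₖ A₂) (D₁ ⊗ₖ D₂) := by
      intro ι κ _ _ _ _ A₁ D₁ q₁ hf A₂ D₂ q₂
      rcases hα with h | h
      · exact final02 α h.1 h.2 h1 A₁ D₁ q₁ hf A₂ D₂ q₂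
      · exact final34 α h.1 h.2 A₁ D₁ q₁ hf A₂ D₂ q₂
    rcases hf with hf | hf
    · exact key _ _ p₁ (flag_state h₁ hf α) _ _ p₂
    · have := key _ _ p₂ (flag_state h₂ hf α) _ _ p₁
      rwa [G_swap, mul_comm (G α _ _)] at this

theorem state_ge {σ₁ : Fin 2 → Matrix ι ι ℂ} {σ₂ : Fin 2 → Matrix κ κ ℂ}
    (h₁ : ∀ x, IsDensity (σ₁ x)) (h₂ : ∀ x, IsDensity (σ₂ x))
    (hf : FlaggedRankTwo σ₁ ∨ FlaggedRankTwo σ₂) (α : ℝ) (h2 : 2 ≤ α) (h3 : α ≤ 3) :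
    Fval α σ₁ σ₂ ≤ Hsum α σ₁ σ₂ := by
  have h0 : 0 < α := by linarith
  have p₁ := psdPair_state h₁ h0
  have p₂ := psdPair_state h₂ h0
  apply Fval_le_Hsum_of_one_lt h₁ h₂ (by linarith)
  rw [p₁.Gfun_eq h0, p₂.Gfun_eq h0, (p₁.kron p₂).Gfun_eq h0]
  rcases hf with hf | hf
  · exact final23 α h2 h3 _ _ p₁ (flag_state h₁ hf α) _ _ p₂
  · have := final23 α h2 h3 _ _ p₂ (flag_state h₂ hf α) _ _ p₁
    rwa [G_swap, mul_comm (G α _ _)] at this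

end Pool.Agent.RC
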