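import Pool.Agent.Lib_helper95.RC.Main24
import Pool.Agent.Lib_helper95.RC.Final02

/-!
# The inequality for `α ∈ [2,4]`, positive semidefinite `A`, flagged `D₁`
-/

open scoped BigOperators ComplexOrder Kronecker MatrixOrder Topology
open MeasureTheory Set Matrix Filter

namespace Pool.Agent.RC

variable {ι κ : Type} [Fintype ι] [DecidableEq ι] [Fintype κ] [DecidableEq κ]

theorem final34_open (α : ℝ) (h3 : 3 < α) (h4 : α < 4)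
    (A₁ D₁ : Matrix ι ι ℂ) (h₁ : IsPsdPair A₁ D₁) (hf : Flag A₁ D₁)
    (A₂ D₂ : Matrix κ κ ℂ) (h₂ : IsPsdPair A₂ D₂) :
    G α A₁ D₁ * G α A₂ D₂ ≤ (2 ^ (α - 1) - 1) * G α (A₁ ⊗ₖ A₂) (D₁ ⊗ₖ D₂) := by
  have h0 : 0 < α := by linarith
  apply le_of_tendsto_of_tendsto'
    ((tendsto_G_shift h0 h₁.pos.1 h₁.herm).mul (tendsto_G_shift h0 h₂.pos.1 h₂.herm))
    ((tendsto_G_shift_kron h0 h₁.pos.1 h₁.herm h₂.pos.1 h₂.herm).const_mul (2 ^ (α - 1) - 1))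
  intro j
  exact (core24 α (by linarith) h4 (ne_of_gt h3) (shift A₁ j) D₁
    (isPair_shift h₁.pos h₁.sub h₁.add j) (hf.shift j)
    (shift A₂ j) D₂ (isPair_shift h₂.pos h₂.sub h₂.add j)).1 h3

theorem final23_open (α : ℝ) (h2 : 2 < α) (h3 : α < 3)
    (A₁ D₁ : Matrix ι ι ℂ) (h₁ : IsPsdPair A₁ D₁) (hf : Flag A₁ D₁)
    (A₂ D₂ : Matrix κ κ ℂ) (h₂ : IsPsdPair A₂ D₂) :
    (2 ^ (α - 1) - 1) * G α (A₁ ⊗ₖ A₂) (D₁ ⊗ₖ D₂) ≤ G α A₁ D₁ * G α A₂ D₂ := by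
  have h0 : 0 < α := by linarith
  apply le_of_tendsto_of_tendsto'
    ((tendsto_G_shift_kron h0 h₁.pos.1 h₁.herm h₂.pos.1 h₂.herm).const_mul (2 ^ (α - 1) - 1))
    ((tendsto_G_shift h0 h₁.pos.1 h₁.herm).mul (tendsto_G_shift h0 h₂.pos.1 h₂.herm))
  intro j
  exact (core24 α h2 (by linarith) (ne_of_lt h3) (shift A₁ j) D₁
    (isPair_shift h₁.pos h₁.sub h₁.add j) (hf.shift j)
    (shift A₂ j) D₂ (isPair_shift h₂.pos h₂.sub h₂.add j)).2 h3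

/-- the two sides are continuous in the exponent -/
theorem tendsto_sides (A₁ D₁ : Matrix ι ι ℂ) (A₂ D₂ : Matrix κ κ ℂ) (α₀ : ℝ) (h : 0 < α₀)
    (F : Filter ℝ) (hF : F ≤ 𝓝 α₀) :
    Tendsto (fun α => G α A₁ D₁ * G α A₂ D₂) F (𝓝 (G α₀ A₁ D₁ * G α₀ A₂ D₂)) ∧
    Tendsto (fun α => (2 ^ (α - 1) - 1) * G α (A₁ ⊗ₖ A₂) (D₁ ⊗ₖ D₂)) F
      (𝓝 ((2 ^ (α₀ - 1) - 1) * G α₀ (A₁ ⊗ₖ A₂) (D₁ ⊗ₖ D₂))) :=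
  ⟨((tendsto_G_exp A₁ D₁ α₀ h).mul (tendsto_G_exp A₂ D₂ α₀ h)).mono_left hF,
    ((tendsto_L α₀).mul (tendsto_G_exp _ _ α₀ h)).mono_left hF⟩

theorem final34 (α : ℝ) (h3 : 3 ≤ α) (h4 : α ≤ 4)
    (A₁ D₁ : Matrix ι ι ℂ) (h₁ : IsPsdPair A₁ D₁) (hf : Flag A₁ D₁)
    (A₂ D₂ : Matrix κ κ ℂ) (h₂ : IsPsdPair A₂ D₂) :
    G α A₁ D₁ * G α A₂ D₂ ≤ (2 ^ (α - 1) - 1) * G α (A₁ ⊗ₖ A₂) (D₁ ⊗ₖ D₂) := by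
  rcases eq_or_lt_of_le h3 with rfl | h3'
  · obtain ⟨t1, t2⟩ := tendsto_sides A₁ D₁ A₂ D₂ 3 (by norm_num) (𝓝[>] 3) nhdsWithin_le_nhds
    apply le_of_tendsto_of_tendsto t1 t2
    have hev : ∀ᶠ α : ℝ in 𝓝[>] 3, α ∈ Ioo (3 : ℝ) 4 := Ioo_mem_nhdsGT (by norm_num)
    filter_upwards [hev] with α hα
    exact final34_open α hα.1 hα.2 A₁ D₁ h₁ hf A₂ D₂ h₂
  rcases eq_or_lt_of_le h4 with rfl | h4'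
  · obtain ⟨t1, t2⟩ := tendsto_sides A₁ D₁ A₂ D₂ 4 (by norm_num) (𝓝[<] 4) nhdsWithin_le_nhds
    apply le_of_tendsto_of_tendsto t1 t2
    have hev : ∀ᶠ α : ℝ in 𝓝[<] 4, α ∈ Ioo (3 : ℝ) 4 := Ioo_mem_nhdsLT (by norm_num)
    filter_upwards [hev] with α hα
    exact final34_open α hα.1 hα.2 A₁ D₁ h₁ hf A₂ D₂ h₂
  exact final34_open α h3' h4' A₁ D₁ h₁ hf A₂ D₂ h₂

theorem final23 (α : ℝ) (h2 : 2 ≤ α) (h3 : α ≤ 3)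
    (A₁ D₁ : Matrix ι ι ℂ) (h₁ : IsPsdPair A₁ D₁) (hf : Flag A₁ D₁)
    (A₂ D₂ : Matrix κ κ ℂ) (h₂ : IsPsdPair A₂ D₂) :
    (2 ^ (α - 1) - 1) * G α (A₁ ⊗ₖ A₂) (D₁ ⊗ₖ D₂) ≤ G α A₁ D₁ * G α A₂ D₂ := by
  rcases eq_or_lt_of_le h2 with rfl | h2'
  · obtain ⟨t1, t2⟩ := tendsto_sides A₁ D₁ A₂ D₂ 2 (by norm_num) (𝓝[>] 2) nhdsWithin_le_nhds
    apply le_of_tendsto_of_tendsto t2 t1
    have hev : ∀ᶠ α : ℝ in 𝓝[>] 2, α ∈ Ioo (2 : ℝ) 3 := Ioo_mem_nhdsGT (by norm_num)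
    filter_upwards [hev] with α hα
    exact final23_open α hα.1 hα.2 A₁ D₁ h₁ hf A₂ D₂ h₂
  rcases eq_or_lt_of_le h3 with rfl | h3'
  · obtain ⟨t1, t2⟩ := tendsto_sides A₁ D₁ A₂ D₂ 3 (by norm_num) (𝓝[<] 3) nhdsWithin_le_nhds
    apply le_of_tendsto_of_tendsto t2 t1
    have hev : ∀ᶠ α : ℝ in 𝓝[<] 3, α ∈ Ioo (2 : ℝ) 3 := Ioo_mem_nhdsLT (by norm_num)
    filter_upwards [hev] with α hα
    exact final23_open α hα.1 hα.2 A₁ D₁ h₁ hf A₂ D₂ h₂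
  exact final23_open α h2' h3' A₁ D₁ h₁ hf A₂ D₂ h₂

theorem final02 (α : ℝ) (h0 : 0 < α) (h2 : α ≤ 2) (h1 : α ≠ 1)
    (A₁ D₁ : Matrix ι ι ℂ) (h₁ : IsPsdPair A₁ D₁) (hf : Flag A₁ D₁)
    (A₂ D₂ : Matrix κ κ ℂ) (h₂ : IsPsdPair A₂ D₂) :
    G α A₁ D₁ * G α A₂ D₂ ≤ (2 ^ (α - 1) - 1) * G α (A₁ ⊗ₖ A₂) (D₁ ⊗ₖ D₂) := by
  rcases eq_or_lt_of_le h2 with rfl | h2'
  · exact final_two A₁ D₁ h₁ hf A₂ D₂ h₂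
  · exact final02_ne α h0 h2' h1 A₁ D₁ h₁ hf A₂ D₂ h₂

end Pool.Agent.RC
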