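import Pool.Agent.Lib_helper95.RC.Defs

/-! # Basic facts: diagonalisation, invariance, positivity, integrability -/

open scoped BigOperators ComplexOrder Kronecker MatrixOrder Topology
open MeasureTheory Set Matrix Filter

namespace Pool.Agent.RC

variable {ι κ : Type} [Fintype ι] [DecidableEq ι] [Fintype κ] [DecidableEq κ]

/-! ### diagonal matrices -/

theorem dg_isHermitian (c : κ → ℝ) : (dg c).IsHermitian := by
  unfold dg
  rw [Matrix.IsHermitian, Matrix.diagonal_conjTranspose]
  congr 1
  ext k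
  simp

theorem dg_mul_dg (c d : κ → ℝ) : dg c * dg d = dg fun k => c k * d k := by
  unfold dg
  rw [Matrix.diagonal_mul_diagonal]
  congr 1
  ext k
  push_cast
  rfl

theorem dg_one : dg (fun _ : κ => (1 : ℝ)) = 1 := by
  unfold dg
  simp

theorem dg_add (c d : κ → ℝ) : dg c + dg d = dg fun k => c k + d k := by
  unfold dg
  rw [Matrix.diagonal_add]
  congr 1
  ext k
  push_cast
  rfl

theorem dg_smul_one (r : ℝ) : (r : ℂ) • (1 : Matrix κ κ ℂ) = dg fun _ => r := by
  unfold dg
  rw [← Matrix.diagonal_one, ← Matrix.diagonal_smul]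
  congr 1
  ext k
  simp

theorem dg_inv (c : κ → ℝ) (hc : ∀ k, c k ≠ 0) : (dg c)⁻¹ = dg fun k => (c k)⁻¹ := by
  apply Matrix.inv_eq_right_inv
  rw [dg_mul_dg, ← dg_one]
  congr 1
  ext k
  exact mul_inv_cancel₀ (hc k)

theorem res_dg (c : κ → ℝ) (r : ℝ) (h : ∀ k, c k + r ≠ 0) :
    Res (dg c) r = dg fun k => (c k + r)⁻¹ := by
  unfold Res
  rw [dg_smul_one, dg_add, dg_inv _ h]

theorem smul_dg (a : ℝ) (c : κ → ℝ) : a • dg c = dg fun k => a * c k := by
  unfold dg
  rw [← Matrix.diagonal_smul]
  congr 1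
  ext k
  simp

/-! ### unitary invariance -/

theorem conj_pow (U M : Matrix ι ι ℂ) (hU : star U * U = 1) (n : ℕ) :
    (U * M * star U) ^ n = U * M ^ n * star U ∨ n = 0 := by
  rcases n with _ | n
  · right; rfl
  left
  induction n with
  | zero => simp
  | succ n ih =>
    rw [pow_succ, ih, pow_succ M]
    calc U * M ^ (n + 1) * star U * (U * M * star U)
        = U * M ^ (n + 1) * (star U * U) * M * star U := by noncomm_ring
      _ = _ := by rw [hU]; noncomm_ring

theorem trace_conj_pow (U M : Matrix ι ι ℂ) (hU : star U * U = 1) (hU' : U * star U = 1) (n : ℕ) :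
    ((U * M * star U) ^ n).trace = (M ^ n).trace := by
  rcases conj_pow U M hU n with h | h
  · rw [h, Matrix.trace_mul_cycle, hU, Matrix.one_mul]
  · rw [h, pow_zero, pow_zero]

theorem res_conj (U A : Matrix ι ι ℂ) (hU : star U * U = 1) (hU' : U * star U = 1) (r : ℝ) :
    Res (U * A * star U) r = U * Res A r * star U := by
  unfold Res
  have h1 : U * A * star U + (r : ℂ) • (1 : Matrix ι ι ℂ) =
      U * (A + (r : ℂ) • (1 : Matrix ι ι ℂ)) * star U := by
    rw [Matrix.mul_add, Matrix.add_mul, Matrix.mul_smul, Matrix.mul_one, Matrix.smul_mul, hU']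
  have h2 : (star U)⁻¹ = U := Matrix.inv_eq_right_inv hU
  have h3 : U⁻¹ = star U := Matrix.inv_eq_right_inv hU'
  rw [h1, Matrix.mul_inv_rev, Matrix.mul_inv_rev, h2, h3, Matrix.mul_assoc]

theorem tn_conj (U A D : Matrix ι ι ℂ) (hU : star U * U = 1) (hU' : U * star U = 1) (n : ℕ)
    (r : ℝ) : tn (U * A * star U) (U * D * star U) n r = tn A D n r := by
  unfold tn
  rw [res_conj U A hU hU']
  have h : U * Res A r * star U * (U * D * star U) = U * (Res A r * D) * star U := by
    calc U * Res A r * star U * (U * D * star U)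
        = U * Res A r * (star U * U) * D * star U := by noncomm_ring
      _ = _ := by rw [hU]; noncomm_ring
  rw [h, trace_conj_pow U _ hU hU']

theorem In_conj (α : ℝ) (U A D : Matrix ι ι ℂ) (hU : star U * U = 1) (hU' : U * star U = 1)
    (n : ℕ) : In α (U * A * star U) (U * D * star U) n = In α A D n := by
  unfold In
  simp only [tn_conj U A D hU hU']

/-- diagonalisation of a positive definite matrix -/
theorem exists_diag (A : Matrix ι ι ℂ) (hA : A.PosDef) :
    ∃ (U : Matrix ι ι ℂ) (a : ι → ℝ), star U * U = 1 ∧ U * star U = 1 ∧ (∀ i, 0 < a i) ∧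
      A = U * dg a * star U := by
  refine ⟨hA.1.eigenvectorUnitary, hA.1.eigenvalues, ?_, ?_, hA.eigenvalues_pos, ?_⟩
  · exact Unitary.coe_star_mul_self _
  · exact Unitary.coe_mul_star_self _
  · have h := hA.1.spectral_theorem
    rw [Unitary.conjStarAlgAut_apply] at h
    exact h

theorem exists_diag_herm (A : Matrix ι ι ℂ) (hA : A.IsHermitian) :
    ∃ (U : Matrix ι ι ℂ) (a : ι → ℝ), star U * U = 1 ∧ U * star U = 1 ∧
      A = U * dg a * star U := by
  refine ⟨hA.eigenvectorUnitary, hA.eigenvalues, ?_, ?_, ?_⟩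
  · exact Unitary.coe_star_mul_self _
  · exact Unitary.coe_mul_star_self _
  · have h := hA.spectral_theorem
    rw [Unitary.conjStarAlgAut_apply] at h
    exact h

end Pool.Agent.RC
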