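import Pool.Agent.Lib_helper95.RC.Defs

/-!
# Block FEY: Feynman parametrization of powers of Stieltjes sums
-/

open scoped BigOperators ComplexOrder Kronecker MatrixOrder Topology
open MeasureTheory Set Matrix Filter

namespace Pool.Agent.RC

theorem fey_hasDeriv (x y : ℝ) (hx : 0 < x) (hy : 0 < y) (n : ℕ) (hn : 0 < n) (t : ℝ)
    (ht : t ∈ Icc (0 : ℝ) 1) :
    HasDerivAt (fun t : ℝ => t ^ n * ((t * x + (1 - t) * y) ^ n)⁻¹ * y⁻¹)
      (n * t ^ (n - 1) * ((t * x + (1 - t) * y) ^ (n + 1))⁻¹) t := by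
  have hpos : 0 < t * x + (1 - t) * y := by
    rcases eq_or_lt_of_le ht.1 with h | h
    · rw [← h]; simpa using hy
    · have h1 : 0 < t * x := mul_pos h hx
      have h2 : 0 ≤ (1 - t) * y := mul_nonneg (by linarith [ht.2]) hy.le
      linarith
  have hg : HasDerivAt (fun t : ℝ => t * x + (1 - t) * y) (x - y) t := by
    have h1 : HasDerivAt (fun t : ℝ => t * x) (1 * x) t := (hasDerivAt_id t).mul_const x
    have h2 : HasDerivAt (fun t : ℝ => (1 - t) * y) ((0 - 1) * y) t :=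
      (((hasDerivAt_const t (1 : ℝ)).sub (hasDerivAt_id t))).mul_const y
    have h3 := h1.add h2
    have h4 : 1 * x + (0 - 1) * y = x - y := by ring
    rw [h4] at h3
    exact h3
  have hgn : HasDerivAt (fun t : ℝ => (t * x + (1 - t) * y) ^ n)
      (n * (t * x + (1 - t) * y) ^ (n - 1) * (x - y)) t := hg.pow n
  have hinv := hgn.inv (pow_pos hpos n).ne'
  have hp : HasDerivAt (fun t : ℝ => t ^ n) (n * t ^ (n - 1)) t := hasDerivAt_pow n t
  have h := (hp.mul hinv).mul_const y⁻¹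
  have hfin : (↑n * t ^ (n - 1) * ((t * x + (1 - t) * y) ^ n)⁻¹ +
      t ^ n * (-(↑n * (t * x + (1 - t) * y) ^ (n - 1) * (x - y)) /
        ((t * x + (1 - t) * y) ^ n) ^ 2)) * y⁻¹ =
      n * t ^ (n - 1) * ((t * x + (1 - t) * y) ^ (n + 1))⁻¹ := by
    obtain ⟨m, rfl⟩ : ∃ m, n = m + 1 := ⟨n - 1, by omega⟩
    simp only [Nat.add_sub_cancel]
    set g := t * x + (1 - t) * y with hgdef
    have hg0 : g ≠ 0 := hpos.ne'
    field_simp
    rw [hgdef]
    ring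
  rw [← hfin]
  exact h

theorem fey_int (x y : ℝ) (hx : 0 < x) (hy : 0 < y) (n : ℕ) (hn : 0 < n) :
    ∫⁻ t in Ioc (0 : ℝ) 1, ENNReal.ofReal (n * t ^ (n - 1)) *
      ENNReal.ofReal (((t * x + (1 - t) * y) ^ (n + 1))⁻¹) =
      ENNReal.ofReal ((x ^ n)⁻¹ * y⁻¹) := by
  have hpos : ∀ t ∈ Icc (0 : ℝ) 1, 0 < t * x + (1 - t) * y := by
    intro t ht
    rcases eq_or_lt_of_le ht.1 with h | h
    · rw [← h]; simpa using hy
    · have h1 : 0 < t * x := mul_pos h hx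
      have h2 : 0 ≤ (1 - t) * y := mul_nonneg (by linarith [ht.2]) hy.le
      linarith
  have hcont : ContinuousOn
      (fun t : ℝ => n * t ^ (n - 1) * ((t * x + (1 - t) * y) ^ (n + 1))⁻¹) (Icc 0 1) := by
    apply ContinuousOn.mul
    · fun_prop
    · apply ContinuousOn.inv₀
      · fun_prop
      · intro t ht
        exact (pow_pos (hpos t ht) _).ne'
  have hint : IntervalIntegrable
      (fun t : ℝ => n * t ^ (n - 1) * ((t * x + (1 - t) * y) ^ (n + 1))⁻¹) volume 0 1 := by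
    apply ContinuousOn.intervalIntegrable
    rwa [uIcc_of_le (zero_le_one' ℝ)]
  have hval := intervalIntegral.integral_eq_sub_of_hasDerivAt
    (f := fun t : ℝ => t ^ n * ((t * x + (1 - t) * y) ^ n)⁻¹ * y⁻¹)
    (f' := fun t : ℝ => n * t ^ (n - 1) * ((t * x + (1 - t) * y) ^ (n + 1))⁻¹)
    (a := 0) (b := 1) (fun t ht => by
      rw [uIcc_of_le (zero_le_one' ℝ)] at ht
      exact fey_hasDeriv x y hx hy n hn t ht) hint
  have hval' : ∫ t in (0 : ℝ)..1, n * t ^ (n - 1) * ((t * x + (1 - t) * y) ^ (n + 1))⁻¹ =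
      (x ^ n)⁻¹ * y⁻¹ := by
    rw [hval]
    simp [hn.ne']
  rw [intervalIntegral.integral_of_le (zero_le_one' ℝ)] at hval'
  rw [← hval', ofReal_integral_eq_lintegral_ofReal]
  · apply setLIntegral_congr_fun measurableSet_Ioc
    intro t ht
    dsimp only
    rw [← ENNReal.ofReal_mul (mul_nonneg (Nat.cast_nonneg n) (pow_nonneg ht.1.le _))]
  · exact (intervalIntegrable_iff_integrableOn_Ioc_of_le (zero_le_one' ℝ)).1 hint
  · filter_upwards [ae_restrict_mem measurableSet_Ioc] with t ht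
    exact mul_nonneg (mul_nonneg (Nat.cast_nonneg n) (pow_nonneg ht.1.le _))
      (inv_nonneg.2 (pow_nonneg (hpos t ⟨ht.1.le, ht.2⟩).le _))

/-- finiteness from the value at `0` -/
theorem fey_fin (M : Measure ℝ) (a₀ a₁ : ℝ) (h0 : 0 < a₀) (hM : ∀ᵐ a ∂M, a ∈ Icc a₀ a₁)
    (n : ℕ) (h : ∫⁻ a, ENNReal.ofReal (((a + 0) ^ n)⁻¹) ∂M < ⊤) (ha : a₀ ≤ a₁) :
    IsFiniteMeasure M := by
  constructor
  have h1 : ENNReal.ofReal ((a₁ ^ n)⁻¹) * M univ ≤
      ∫⁻ a, ENNReal.ofReal (((a + 0) ^ n)⁻¹) ∂M := by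
    rw [← lintegral_const]
    apply lintegral_mono_ae
    filter_upwards [hM] with a ha
    apply ENNReal.ofReal_le_ofReal
    rw [add_zero]
    exact inv_anti₀ (pow_pos (h0.trans_le ha.1) n) (pow_le_pow_left₀ (h0.le.trans ha.1) ha.2 n)
  have h2 : ENNReal.ofReal ((a₁ ^ n)⁻¹) ≠ 0 := by
    rw [ne_eq, ENNReal.ofReal_eq_zero, not_le]
    exact inv_pos.2 (pow_pos (h0.trans_le ha) n)
  by_contra hcon
  rw [not_lt, top_le_iff] at hcon
  rw [hcon, ENNReal.mul_top h2] at h1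
  exact absurd h (not_lt.2 h1)

theorem fey_step (M : Measure ℝ) [IsFiniteMeasure M] (a₀ a₁ c : ℝ) (h0 : 0 < a₀)
    (hM : ∀ᵐ a ∂M, a ∈ Icc a₀ a₁) (hc : c ∈ Icc a₀ a₁) (n : ℕ) (hn : 0 < n) :
    ∃ M' : Measure ℝ, (∀ᵐ a ∂M', a ∈ Icc a₀ a₁) ∧
      ∀ s, 0 ≤ s → ∫⁻ a, ENNReal.ofReal (((a + s) ^ (n + 1))⁻¹) ∂M' =
        ENNReal.ofReal ((c + s)⁻¹) * ∫⁻ a, ENNReal.ofReal (((a + s) ^ n)⁻¹) ∂M := by
  set ν : Measure ℝ := volume.restrict (Ioc (0 : ℝ) 1) with hν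
  set w : ℝ × ℝ → ENNReal := fun p => ENNReal.ofReal (n * p.2 ^ (n - 1)) with hw
  have hwm : Measurable w := by
    rw [hw]
    fun_prop
  set φ : ℝ × ℝ → ℝ := fun p => p.2 * p.1 + (1 - p.2) * c with hφ
  have hφm : Measurable φ := by
    rw [hφ]
    fun_prop
  refine ⟨((M.prod ν).withDensity w).map φ, ?_, ?_⟩
  · rw [ae_map_iff (p := fun a => a ∈ Icc a₀ a₁) hφm.aemeasurable measurableSet_Icc]
    apply withDensity_absolutelyContinuous (M.prod ν) w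
    have h1 : ∀ᵐ p ∂(M.prod ν), p.1 ∈ Icc a₀ a₁ :=
      Measure.quasiMeasurePreserving_fst.ae hM
    have h2 : ∀ᵐ p ∂(M.prod ν), p.2 ∈ Ioc (0 : ℝ) 1 :=
      Measure.quasiMeasurePreserving_snd.ae (ae_restrict_mem measurableSet_Ioc)
    filter_upwards [h1, h2] with p hp1 hp2
    rw [hφ]
    have hb : 0 ≤ 1 - p.2 := by linarith [hp2.2]
    have ht : 0 ≤ p.2 := hp2.1.le
    constructor
    · have e1 := mul_le_mul_of_nonneg_left hp1.1 ht
      have e2 := mul_le_mul_of_nonneg_left hc.1 hb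
      show a₀ ≤ p.2 * p.1 + (1 - p.2) * c
      linarith
    · have e1 := mul_le_mul_of_nonneg_left hp1.2 ht
      have e2 := mul_le_mul_of_nonneg_left hc.2 hb
      show p.2 * p.1 + (1 - p.2) * c ≤ a₁
      linarith
  · intro s hs
    have hfm : Measurable fun a : ℝ => ENNReal.ofReal (((a + s) ^ (n + 1))⁻¹) := by fun_prop
    rw [lintegral_map hfm hφm]
    have hcomp : ∫⁻ p, ENNReal.ofReal (((φ p + s) ^ (n + 1))⁻¹) ∂(M.prod ν).withDensity w =
        ∫⁻ p, (w * fun p => ENNReal.ofReal (((φ p + s) ^ (n + 1))⁻¹)) p ∂(M.prod ν) :=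
      lintegral_withDensity_eq_lintegral_mul _ hwm (hfm.comp hφm)
    have hprod : ∫⁻ p, (w * fun p => ENNReal.ofReal (((φ p + s) ^ (n + 1))⁻¹)) p ∂(M.prod ν) =
        ∫⁻ a, ∫⁻ t, (w * fun p => ENNReal.ofReal (((φ p + s) ^ (n + 1))⁻¹)) (a, t) ∂ν ∂M :=
      lintegral_prod _ (hwm.mul (hfm.comp hφm)).aemeasurable
    rw [hcomp, hprod, ← lintegral_const_mul _ (by fun_prop)]
    apply lintegral_congr_ae
    filter_upwards [hM] with a ha
    have hx : 0 < a + s := by linarith [ha.1]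
    have hy : 0 < c + s := by linarith [hc.1]
    have := fey_int (a + s) (c + s) hx hy n hn
    rw [← ENNReal.ofReal_mul (inv_nonneg.2 hy.le), mul_comm (c + s)⁻¹, ← this]
    apply lintegral_congr
    intro t
    simp only [Pi.mul_apply, hw, hφ, Function.comp_apply]
    congr 3
    ring

theorem fey_lintegral (K : ℕ) (a u : Fin K → ℝ) (ha : ∀ i, 0 < a i) (hu : ∀ i, 0 ≤ u i) :
    ∃ a₀ a₁ : ℝ, 0 < a₀ ∧ a₀ ≤ a₁ ∧ ∀ n : ℕ, 0 < n → ∃ M : Measure ℝ, IsFiniteMeasure M ∧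
      (∀ᵐ x ∂M, x ∈ Icc a₀ a₁) ∧
      ∀ s, 0 ≤ s → ∫⁻ x, ENNReal.ofReal (((x + s) ^ n)⁻¹) ∂M =
        ENNReal.ofReal ((∑ i, u i / (a i + s)) ^ n) := by
  obtain ⟨a₀, h0, ha₀⟩ : ∃ a₀ : ℝ, 0 < a₀ ∧ ∀ i, a₀ ≤ a i := by
    rcases isEmpty_or_nonempty (Fin K) with hK | hK
    · exact ⟨1, one_pos, fun i => (hK.false i).elim⟩
    · obtain ⟨i, hi⟩ := Finite.exists_min a
      exact ⟨a i, ha i, hi⟩
  obtain ⟨a₁', ha₁'⟩ : ∃ a₁ : ℝ, ∀ i, a i ≤ a₁ := by
    rcases isEmpty_or_nonempty (Fin K) with hK | hK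
    · exact ⟨1, fun i => (hK.false i).elim⟩
    · obtain ⟨i, hi⟩ := Finite.exists_max a
      exact ⟨a i, hi⟩
  set a₁ := max a₀ a₁' with ha₁d
  have h01 : a₀ ≤ a₁ := le_max_left _ _
  have ha₁ : ∀ i, a i ≤ a₁ := fun i => (ha₁' i).trans (le_max_right _ _)
  refine ⟨a₀, a₁, h0, h01, ?_⟩
  intro n hn
  induction n with
  | zero => exact absurd hn (lt_irrefl 0)
  | succ n ih =>
    -- generic assembly from the summands
    have key : ∀ (Mi : Fin K → Measure ℝ), (∀ i, ∀ᵐ x ∂(Mi i), x ∈ Icc a₀ a₁) →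
        (∀ i s, 0 ≤ s → ∫⁻ x, ENNReal.ofReal (((x + s) ^ (n + 1))⁻¹) ∂(Mi i) =
          ENNReal.ofReal ((a i + s)⁻¹ * (∑ i, u i / (a i + s)) ^ n)) →
        ∃ M : Measure ℝ, IsFiniteMeasure M ∧ (∀ᵐ x ∂M, x ∈ Icc a₀ a₁) ∧
          ∀ s, 0 ≤ s → ∫⁻ x, ENNReal.ofReal (((x + s) ^ (n + 1))⁻¹) ∂M =
            ENNReal.ofReal ((∑ i, u i / (a i + s)) ^ (n + 1)) := by
      intro Mi hMi hMi'
      set M : Measure ℝ := ∑ i, ENNReal.ofReal (u i) • Mi i with hMd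
      have hsupp : ∀ᵐ x ∂M, x ∈ Icc a₀ a₁ := by
        rw [ae_iff, hMd, Measure.finsetSum_apply]
        apply Finset.sum_eq_zero
        intro i _
        rw [Measure.smul_apply, (ae_iff.1 (hMi i)), smul_zero]
      have hval : ∀ s, 0 ≤ s → ∫⁻ x, ENNReal.ofReal (((x + s) ^ (n + 1))⁻¹) ∂M =
            ENNReal.ofReal ((∑ i, u i / (a i + s)) ^ (n + 1)) := by
        intro s hs
        have hnn : ∀ i, 0 ≤ u i / (a i + s) := fun i =>
          div_nonneg (hu i) (add_nonneg (ha i).le hs)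
        rw [hMd, lintegral_finsetSum_measure, pow_succ', Finset.sum_mul,
          ENNReal.ofReal_sum_of_nonneg fun i _ =>
            mul_nonneg (hnn i) (pow_nonneg (Finset.sum_nonneg fun j _ => hnn j) n)]
        apply Finset.sum_congr rfl
        intro i _
        rw [lintegral_smul_measure, hMi' i s hs, smul_eq_mul, ← ENNReal.ofReal_mul (hu i)]
        congr 1
        rw [div_eq_mul_inv]
        ring
      refine ⟨M, ?_, hsupp, hval⟩
      apply fey_fin M a₀ a₁ h0 hsupp (n + 1) _ h01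
      rw [hval 0 le_rfl]
      exact ENNReal.ofReal_lt_top
    rcases Nat.eq_zero_or_pos n with hn0 | hn0
    · subst hn0
      apply key (fun i => Measure.dirac (a i))
      · intro i
        rw [ae_dirac_iff (p := fun x => x ∈ Icc a₀ a₁) measurableSet_Icc]
        exact ⟨ha₀ i, ha₁ i⟩
      · intro i s hs
        rw [lintegral_dirac' _ (by fun_prop)]
        simp
    · obtain ⟨M, hMf, hMs, hMv⟩ := ih hn0
      have hstep := fun i => fey_step M a₀ a₁ (a i) h0 hMs ⟨ha₀ i, ha₁ i⟩ n hn0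
      choose Mi hMi1 hMi2 using hstep
      apply key Mi hMi1
      intro i s hs
      rw [hMi2 i s hs, hMv s hs, ← ENNReal.ofReal_mul (inv_nonneg.2 (add_nonneg (ha i).le hs))]

theorem feynman (l : ℝ → ℝ) (hl : ResForm l) (n : ℕ) (hn : 0 < n) :
    ∃ (a₀ a₁ : ℝ) (M : Measure ℝ), 0 < a₀ ∧ IsFiniteMeasure M ∧ M (Icc a₀ a₁)ᶜ = 0 ∧
      ∀ s, 0 ≤ s → l s ^ n = ∫ a, ((a + s) ^ n)⁻¹ ∂M := by
  obtain ⟨K, a, u, ha, hu, hl⟩ := hl
  obtain ⟨a₀, a₁, h0, h01, h⟩ := fey_lintegral K a u ha hu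
  obtain ⟨M, hM1, hM2, hM3⟩ := h n hn
  refine ⟨a₀, a₁, M, h0, hM1, ae_iff.1 hM2, ?_⟩
  intro s hs
  rw [hl s hs, integral_eq_lintegral_of_nonneg_ae, hM3 s hs, ENNReal.toReal_ofReal]
  · exact pow_nonneg (Finset.sum_nonneg fun i _ => div_nonneg (hu i) (add_nonneg (ha i).le hs)) n
  · filter_upwards [hM2] with x hx
    have : 0 ≤ x + s := by linarith [hx.1]
    exact inv_nonneg.2 (pow_nonneg this n)
  · have : Measurable fun x : ℝ => ((x + s) ^ n)⁻¹ := by fun_prop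
    exact this.aestronglyMeasurable

end Pool.Agent.RC
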