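import Pool.Agent.Lib_helper33.RC_LT
import Pool.Agent.Lib_helper95.RC.Int
import Pool.Agent.Lib_helper95.RC.Fey

/-!
# Block RF
-/

open scoped BigOperators ComplexOrder Kronecker MatrixOrder Topology
open MeasureTheory Set Matrix Filter

namespace Pool.Agent.RC

variable {ι κ : Type} [Fintype ι] [DecidableEq ι] [Fintype κ] [DecidableEq κ]

theorem trace_mul_pow_comm (X Y : Matrix κ κ ℂ) (n : ℕ) :
    ((X * Y) ^ n).trace = ((Y * X) ^ n).trace := by
  rcases n with _ | n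
  · simp
  have h2 : ∀ m, (X * Y) ^ (m + 1) = X * (Y * X) ^ m * Y := by
    intro m
    induction m with
    | zero => simp
    | succ m ih =>
      rw [pow_succ, ih, pow_succ (Y * X)]
      noncomm_ring
  rw [h2 n, Matrix.trace_mul_comm, ← Matrix.mul_assoc, ← pow_succ']

theorem dg_comm (c d : κ → ℝ) : dg c * dg d = dg d * dg c := by
  rw [dg_mul_dg, dg_mul_dg]
  congr 1
  ext k
  exact mul_comm _ _

/-- main form of the Lieb-Thirring inequality used below -/
theorem Tc_mul_le (t d : κ → ℝ) (ht : ∀ k, 0 ≤ t k) (hd : ∀ k, 0 ≤ d k) (E : Matrix κ κ ℂ)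
    (hE : E.IsHermitian) (n : ℕ) (hn : Even n) :
    Tc (fun k => t k * d k) E n ≤
      ∑ k, t k ^ n * (((dg (fun k => √(d k)) * E * dg (fun k => √(d k))) ^ n) k k).re := by
  refine le_trans (le_of_eq ?_) (lt_ineq t ht _ (sym_isHermitian (fun k => √(d k)) E hE) n hn)
  have h1 : dg d = dg (fun k => √(d k)) * dg (fun k => √(d k)) := by
    rw [dg_mul_dg]
    congr 1
    ext k
    exact (Real.mul_self_sqrt (hd k)).symm
  unfold Tc
  rw [← dg_mul_dg, h1]
  set S := dg (fun k => √(d k)) with hS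
  have e1 : dg t * (S * S) * E = S * (dg t * (S * E)) := by
    rw [← Matrix.mul_assoc, hS, dg_comm t]
    simp only [Matrix.mul_assoc]
  have e2 : dg t * (S * E * S) = dg t * (S * E) * S := by
    simp only [Matrix.mul_assoc]
  rw [e1, e2, trace_mul_pow_comm]

theorem Tc_mono (c d : κ → ℝ) (hc : ∀ k, 0 ≤ c k) (hcd : ∀ k, c k ≤ d k) (E : Matrix κ κ ℂ)
    (hE : E.IsHermitian) (n : ℕ) (hn : Even n) : Tc c E n ≤ Tc d E n := by
  have hd : ∀ k, 0 ≤ d k := fun k => (hc k).trans (hcd k)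
  have h1 := Tc_mul_le (fun k => c k / d k) d (fun k => div_nonneg (hc k) (hd k)) hd E hE n hn
  have h2 : (fun k => c k / d k * d k) = c := by
    ext k
    rcases eq_or_lt_of_le (hd k) with h | h
    · have : c k = 0 := le_antisymm (h ▸ hcd k) (hc k)
      rw [this]; simp
    · exact div_mul_cancel₀ _ h.ne'
  rw [h2] at h1
  refine h1.trans ?_
  rw [Tc_sym d hd]
  unfold Matrix.trace
  rw [Complex.re_sum]
  apply Finset.sum_le_sum
  intro k _
  have h3 : 0 ≤ (((dg (fun k => √(d k)) * E * dg (fun k => √(d k))) ^ n) k k).re :=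
    pow_diag_nonneg _ (sym_isHermitian _ E hE) n hn k
  have h4 : (c k / d k) ^ n ≤ 1 := by
    apply pow_le_one₀ (div_nonneg (hc k) (hd k))
    rcases eq_or_lt_of_le (hd k) with h | h
    · rw [← h]; simp
    · exact (div_le_one h).2 (hcd k)
  have := mul_le_mul_of_nonneg_right h4 h3
  rw [one_mul] at this
  exact this

theorem resForm_bound (l : ℝ → ℝ) (hl : ResForm l) :
    ∃ a C : ℝ, 0 < a ∧ 0 ≤ C ∧ (∀ s, 0 ≤ s → 0 ≤ l s ∧ l s ≤ C * (a + s)⁻¹) ∧
      ContinuousOn l (Ici 0) := by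
  obtain ⟨K, a, u, ha, hu, hl⟩ := hl
  obtain ⟨a₀, h0, hmin⟩ := exists_min a ha
  refine ⟨a₀, ∑ i, u i, h0, Finset.sum_nonneg fun i _ => hu i, ?_, ?_⟩
  · intro s hs
    rw [hl s hs]
    constructor
    · exact Finset.sum_nonneg fun i _ => div_nonneg (hu i) (add_nonneg (ha i).le hs)
    · rw [Finset.sum_mul]
      apply Finset.sum_le_sum
      intro i _
      rw [div_eq_mul_inv]
      apply mul_le_mul_of_nonneg_left _ (hu i)
      exact inv_anti₀ (by linarith) (by linarith [hmin i])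
  · have : ContinuousOn (fun s => ∑ i, u i / (a i + s)) (Ici 0) := by
      apply continuousOn_finsetSum
      intro i _
      apply ContinuousOn.div
      · fun_prop
      · fun_prop
      · intro s hs
        have hs0 : (0 : ℝ) ≤ s := hs
        have := ha i
        exact ne_of_gt (by linarith)
    exact this.congr fun s hs => hl s hs

/-- Fubini for the kernels used here -/
theorem fub (M : Measure ℝ) [IsFiniteMeasure M] (a₀ a₁ a₂ C α : ℝ) (n : ℕ) (h0 : 0 < α)
    (hα : α < n) (ha₂ : 0 < a₂) (hM : ∀ᵐ a ∂M, a ∈ Icc a₀ a₁) (F : ℝ → ℝ → ℝ)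
    (hF : Measurable (Function.uncurry F))
    (hb : ∀ a r, a ∈ Icc a₀ a₁ → 0 < r → |F a r| ≤ C * (r ^ (α - 1) * ((a₂ + r) ^ n)⁻¹)) :
    Integrable (fun r => ∫ a, F a r ∂M) (volume.restrict (Ioi 0)) ∧
    ∫ a, (∫ r in Ioi (0 : ℝ), F a r) ∂M = ∫ r in Ioi (0 : ℝ), (∫ a, F a r ∂M) := by
  have hint : Integrable (Function.uncurry F) (M.prod (volume.restrict (Ioi 0))) := by
    have h1 : Integrable (fun z : ℝ × ℝ => (C : ℝ) * (z.2 ^ (α - 1) * ((a₂ + z.2) ^ n)⁻¹))
        (M.prod (volume.restrict (Ioi 0))) :=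
      Integrable.mul_prod (f := fun _ => C) (g := fun r => r ^ (α - 1) * ((a₂ + r) ^ n)⁻¹)
        (integrable_const C) (integrableOn_scalar α a₂ n h0 hα ha₂)
    refine h1.mono' hF.aestronglyMeasurable ?_
    have e1 : ∀ᵐ p ∂(M.prod (volume.restrict (Ioi (0 : ℝ)))), p.1 ∈ Icc a₀ a₁ :=
      Measure.quasiMeasurePreserving_fst.ae hM
    have e2 : ∀ᵐ p ∂(M.prod (volume.restrict (Ioi (0 : ℝ)))), p.2 ∈ Ioi (0 : ℝ) :=
      Measure.quasiMeasurePreserving_snd.ae (ae_restrict_mem measurableSet_Ioi)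
    filter_upwards [e1, e2] with p hp1 hp2
    exact hb p.1 p.2 hp1 hp2
  exact ⟨hint.integral_prod_right, integral_integral_swap hint⟩

theorem measurable_Tc_inv (b : κ → ℝ) (E : Matrix κ κ ℂ) (n : ℕ) :
    Measurable fun p : ℝ × ℝ => Tc (fun k => (p.1 * b k + p.2)⁻¹) E n := by
  apply (continuous_Tc E n).measurable.comp
  apply measurable_pi_lambda
  intro k
  fun_prop

theorem measurable_Tc_inv' (b : κ → ℝ) (E : Matrix κ κ ℂ) (n : ℕ) (r : ℝ) :
    Measurable fun a : ℝ => Tc (fun k => (a * b k + r)⁻¹) E n := by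
  apply (continuous_Tc E n).measurable.comp
  apply measurable_pi_lambda
  intro k
  fun_prop

/-- the pointwise inequality -/
theorem rf_pointwise (l : ℝ → ℝ) (hl : ResForm l) (n : ℕ) (hn0 : 0 < n) (hn : Even n)
    (b : κ → ℝ) (hb : ∀ k, 0 < b k) (E : Matrix κ κ ℂ) (hE : E.IsHermitian)
    (a₀ a₁ : ℝ) (M : Measure ℝ) [IsFiniteMeasure M] (h0 : 0 < a₀)
    (hM : ∀ᵐ a ∂M, a ∈ Icc a₀ a₁) (hfey : ∀ s, 0 ≤ s → l s ^ n = ∫ a, ((a + s) ^ n)⁻¹ ∂M)
    (r : ℝ) (hr : 0 < r) :
    ∫ a, Tc (fun k => (a * b k + r)⁻¹) E n ∂M ≤ Tc (fun k => (b k)⁻¹ * l (r / b k)) E n := by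
  obtain ⟨_, _, _, _, hlb, _⟩ := resForm_bound l hl
  have hl0 : ∀ k, 0 ≤ (b k)⁻¹ * l (r / b k) := fun k =>
    mul_nonneg (inv_nonneg.2 (hb k).le) (hlb _ (div_nonneg hr.le (hb k).le)).1
  rcases eq_or_ne M 0 with hM0 | hM0
  · subst hM0
    rw [integral_zero_measure]
    exact Tc_nonneg _ hl0 E hE n hn
  -- positivity of `λ`
  have hpow : ∀ k, ((b k)⁻¹ * l (r / b k)) ^ n = ∫ a, ((a * b k + r) ^ n)⁻¹ ∂M := by
    intro k
    rw [mul_pow, hfey _ (div_nonneg hr.le (hb k).le), ← integral_const_mul]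
    apply integral_congr_ae
    filter_upwards [hM] with a ha
    have hbk := hb k
    have ha0 : 0 < a := h0.trans_le ha.1
    have e1 : (a + r / b k) = (b k)⁻¹ * (a * b k + r) := by
      field_simp
    rw [e1, mul_pow, mul_inv, ← mul_assoc]
    have e2 : (b k)⁻¹ ^ n * ((b k)⁻¹ ^ n)⁻¹ = 1 := by
      apply mul_inv_cancel₀
      positivity
    rw [e2, one_mul]
  have hbd : ∀ k a, a ∈ Icc a₀ a₁ → |(a * b k + r)⁻¹| ≤ r⁻¹ := by
    intro k a ha
    have ha0 : 0 < a := h0.trans_le ha.1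
    have hbk := hb k
    rw [abs_of_nonneg (by positivity)]
    apply inv_anti₀ hr
    have : 0 < a * b k := mul_pos ha0 hbk
    linarith
  have hintk : ∀ k, Integrable (fun a => ((a * b k + r) ^ n)⁻¹) M := by
    intro k
    apply Integrable.of_bound (C := (r⁻¹) ^ n)
    · have : Measurable fun a : ℝ => ((a * b k + r) ^ n)⁻¹ := by fun_prop
      exact this.aestronglyMeasurable
    · filter_upwards [hM] with a ha
      rw [← inv_pow, Real.norm_eq_abs, abs_pow]
      exact pow_le_pow_left₀ (abs_nonneg _) (hbd k a ha) n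
  have hlpos : ∀ k, 0 < (b k)⁻¹ * l (r / b k) := by
    intro k
    rcases eq_or_lt_of_le (hl0 k) with h | h
    · exfalso
      have h1 := hpow k
      rw [← h, zero_pow hn0.ne'] at h1
      have h2 : 0 < ∫ a, ((a * b k + r) ^ n)⁻¹ ∂M := by
        have hbk := hb k
        rw [integral_pos_iff_support_of_nonneg_ae _ (hintk k)]
        · have hsub : Icc a₀ a₁ ⊆ Function.support (fun a => ((a * b k + r) ^ n)⁻¹) := by
            intro a ha
            have ha0 : 0 < a := h0.trans_le ha.1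
            rw [Function.mem_support]
            positivity
          refine lt_of_lt_of_le ?_ (measure_mono hsub)
          rw [pos_iff_ne_zero]
          intro hz
          apply hM0
          rw [← Measure.measure_univ_eq_zero, ← union_compl_self (Icc a₀ a₁)]
          exact measure_union_null hz (ae_iff.1 hM)
        · filter_upwards [hM] with a ha
          have ha0 : 0 < a := h0.trans_le ha.1
          show (0 : ℝ) ≤ ((a * b k + r) ^ n)⁻¹
          positivity
      linarith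
    · exact h
  obtain ⟨C, hC, hCT⟩ := abs_Tc_le E n hn0
  have hintT : Integrable (fun a => Tc (fun k => (a * b k + r)⁻¹) E n) M := by
    apply Integrable.of_bound (C := C * (r⁻¹) ^ n)
    · exact (measurable_Tc_inv' b E n r).aestronglyMeasurable
    · filter_upwards [hM] with a ha
      exact hCT _ _ (inv_nonneg.2 hr.le) (fun k => hbd k a ha)
  set lamk : κ → ℝ := fun k => (b k)⁻¹ * l (r / b k) with hlam
  set W := (dg (fun k => √(lamk k)) * E * dg (fun k => √(lamk k))) ^ n with hW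
  have hpt : ∀ᵐ a ∂M, Tc (fun k => (a * b k + r)⁻¹) E n ≤
      ∑ k, ((lamk k) ^ n)⁻¹ * (W k k).re * ((a * b k + r) ^ n)⁻¹ := by
    filter_upwards [hM] with a ha
    have ha0 : 0 < a := h0.trans_le ha.1
    have h1 := Tc_mul_le (fun k => (a * b k + r)⁻¹ / lamk k) lamk
      (fun k => div_nonneg (by have := hb k; positivity) (hlpos k).le) (fun k => (hlpos k).le)
      E hE n hn
    have h2 : (fun k => (a * b k + r)⁻¹ / lamk k * lamk k) = fun k => (a * b k + r)⁻¹ := by
      ext k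
      exact div_mul_cancel₀ _ (hlpos k).ne'
    rw [h2] at h1
    refine h1.trans (le_of_eq ?_)
    apply Finset.sum_congr rfl
    intro k _
    rw [div_pow, inv_pow, div_eq_mul_inv]
    ring
  have hintS : ∀ k, Integrable
      (fun a => ((lamk k) ^ n)⁻¹ * (W k k).re * ((a * b k + r) ^ n)⁻¹) M :=
    fun k => (hintk k).const_mul _
  have hintSS : Integrable
      (fun a => ∑ k, ((lamk k) ^ n)⁻¹ * (W k k).re * ((a * b k + r) ^ n)⁻¹) M :=
    integrable_finsetSum _ fun k _ => hintS k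
  have hsum : ∫ a, (∑ k, ((lamk k) ^ n)⁻¹ * (W k k).re * ((a * b k + r) ^ n)⁻¹) ∂M =
      ∑ k, ((lamk k) ^ n)⁻¹ * (W k k).re * ∫ a, ((a * b k + r) ^ n)⁻¹ ∂M := by
    rw [integral_finsetSum _ fun k _ => hintS k]
    apply Finset.sum_congr rfl
    intro k _
    rw [integral_const_mul]
  refine (integral_mono_ae hintT hintSS hpt).trans ?_
  rw [hsum]
  apply le_of_eq
  calc ∑ k, ((lamk k) ^ n)⁻¹ * (W k k).re * ∫ a, ((a * b k + r) ^ n)⁻¹ ∂M
      = ∑ k, (W k k).re := by
        apply Finset.sum_congr rfl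
        intro k _
        rw [← hpow k]
        have hne : (lamk k) ^ n ≠ 0 := (pow_pos (hlpos k) n).ne'
        show ((lamk k) ^ n)⁻¹ * (W k k).re * (lamk k) ^ n = _
        rw [mul_comm ((lamk k) ^ n)⁻¹, mul_assoc, inv_mul_cancel₀ hne, mul_one]
    _ = Tc lamk E n := by
        rw [Tc_sym lamk (fun k => (hlpos k).le)]
        unfold Matrix.trace
        rw [Complex.re_sum]
        rfl

theorem resForm_scaled (l : ℝ → ℝ) (hl : ResForm l) (b : κ → ℝ) (hb : ∀ k, 0 < b k) :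
    ∃ a C : ℝ, 0 < a ∧ 0 ≤ C ∧ (∀ k r, 0 < r → |(b k)⁻¹ * l (r / b k)| ≤ C * (a + r)⁻¹) ∧
      ∀ k, ContinuousOn (fun r => (b k)⁻¹ * l (r / b k)) (Ioi 0) := by
  obtain ⟨a, C, ha, hC, h1, h2⟩ := resForm_bound l hl
  obtain ⟨b₀, hb₀, hmin⟩ := exists_min b hb
  refine ⟨a * b₀, C, mul_pos ha hb₀, hC, ?_, ?_⟩
  · intro k r hr
    have hbk := hb k
    have h3 := h1 (r / b k) (div_nonneg hr.le hbk.le)
    rw [abs_of_nonneg (mul_nonneg (inv_nonneg.2 hbk.le) h3.1)]
    calc (b k)⁻¹ * l (r / b k) ≤ (b k)⁻¹ * (C * (a + r / b k)⁻¹) :=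
          mul_le_mul_of_nonneg_left h3.2 (inv_nonneg.2 hbk.le)
      _ = C * (a * b k + r)⁻¹ := by field_simp
      _ ≤ C * (a * b₀ + r)⁻¹ := by
          apply mul_le_mul_of_nonneg_left _ hC
          apply inv_anti₀
          · have := mul_pos ha hb₀
            linarith
          · have := mul_le_mul_of_nonneg_left (hmin k) ha.le
            linarith
  · intro k
    apply ContinuousOn.mul continuousOn_const
    apply h2.comp (by fun_prop)
    intro r hr
    have hr0 : (0 : ℝ) < r := hr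
    exact div_nonneg hr0.le (hb k).le

theorem resForm_ineq (l : ℝ → ℝ) (hl : ResForm l) (α : ℝ) (n : ℕ) (h0 : 0 < α) (hα : α < n)
    (hn : Even n) (b : κ → ℝ) (hb : ∀ k, 0 < b k) (E : Matrix κ κ ℂ) (hE : E.IsHermitian) :
    IntegrableOn (fun s => s ^ (α - 1) * l s ^ n) (Ioi 0) ∧
    IntegrableOn (fun r => r ^ (α - 1) * Tc (fun k => (b k)⁻¹ * l (r / b k)) E n) (Ioi 0) ∧
    (∫ s in Ioi (0 : ℝ), s ^ (α - 1) * l s ^ n) * In α (dg b) E n ≤
      bet α n * ∫ r in Ioi (0 : ℝ), r ^ (α - 1) * Tc (fun k => (b k)⁻¹ * l (r / b k)) E n := by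
  have hn0 : 0 < n := by
    rcases Nat.eq_zero_or_pos n with h | h
    · subst h; norm_num at hα; linarith
    · exact h
  obtain ⟨a₀, a₁, M, ha₀, hMf, hMs, hfey⟩ := feynman l hl n hn0
  have hM : ∀ᵐ a ∂M, a ∈ Icc a₀ a₁ := ae_iff.2 hMs
  obtain ⟨b₀, hb₀, hmin⟩ := exists_min b hb
  obtain ⟨C, hC, hCT⟩ := abs_Tc_le E n hn0
  -- first Fubini
  obtain ⟨f1i, f1⟩ := fub M a₀ a₁ a₀ 1 α n h0 hα ha₀ hM
    (fun a r => r ^ (α - 1) * ((a + r) ^ n)⁻¹) (by
      unfold Function.uncurry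
      fun_prop) (by
      intro a r ha hr
      have ha0 : 0 < a := ha₀.trans_le ha.1
      rw [one_mul, abs_of_nonneg (by positivity)]
      apply mul_le_mul_of_nonneg_left _ (by positivity)
      exact inv_anti₀ (by positivity) (pow_le_pow_left₀ (by positivity) (by linarith [ha.1]) n))
  -- second Fubini
  obtain ⟨f2i, f2⟩ := fub M a₀ a₁ (a₀ * b₀) C α n h0 hα (mul_pos ha₀ hb₀) hM
    (fun a r => r ^ (α - 1) * Tc (fun k => (a * b k + r)⁻¹) E n) (by
      apply Measurable.mul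
      · exact (measurable_snd.pow_const (α - 1))
      · exact measurable_Tc_inv b E n) (by
      intro a r ha hr
      have ha0 : 0 < a := ha₀.trans_le ha.1
      rw [abs_mul, abs_of_nonneg (by positivity : (0 : ℝ) ≤ r ^ (α - 1))]
      have hpos : 0 < a₀ * b₀ := mul_pos ha₀ hb₀
      have h1 := hCT (fun k => (a * b k + r)⁻¹) ((a₀ * b₀ + r)⁻¹) (by positivity) (by
        intro k
        have hbk := hb k
        rw [abs_of_nonneg (by positivity)]
        apply inv_anti₀ (by positivity)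
        have : a₀ * b₀ ≤ a * b k := mul_le_mul ha.1 (hmin k) hb₀.le ha0.le
        linarith)
      calc r ^ (α - 1) * |Tc (fun k => (a * b k + r)⁻¹) E n|
          ≤ r ^ (α - 1) * (C * ((a₀ * b₀ + r)⁻¹) ^ n) :=
            mul_le_mul_of_nonneg_left h1 (by positivity)
        _ = _ := by rw [inv_pow]; ring)
  have e1 : ∀ r ∈ Ioi (0 : ℝ), ∫ a, r ^ (α - 1) * ((a + r) ^ n)⁻¹ ∂M =
      r ^ (α - 1) * l r ^ n := by
    intro r hr
    have hr0 : (0 : ℝ) < r := hr
    rw [integral_const_mul, hfey r hr0.le]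
  have e2 : ∀ r, ∫ a, r ^ (α - 1) * Tc (fun k => (a * b k + r)⁻¹) E n ∂M =
      r ^ (α - 1) * ∫ a, Tc (fun k => (a * b k + r)⁻¹) E n ∂M := by
    intro r
    rw [integral_const_mul]
  have hintl : IntegrableOn (fun s => s ^ (α - 1) * l s ^ n) (Ioi 0) :=
    IntegrableOn.congr_fun f1i e1 measurableSet_Ioi
  obtain ⟨a₃, C₃, ha₃, hC₃, hb₃, hc₃⟩ := resForm_scaled l hl b hb
  have hintT : IntegrableOn
      (fun r => r ^ (α - 1) * Tc (fun k => (b k)⁻¹ * l (r / b k)) E n) (Ioi 0) :=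
    integrableOn_Tc α E n h0 hα (fun k r => (b k)⁻¹ * l (r / b k)) a₃ ha₃ hc₃ C₃ hC₃ hb₃
  refine ⟨hintl, hintT, ?_⟩
  -- the two sides
  have s1 : (∫ s in Ioi (0 : ℝ), s ^ (α - 1) * l s ^ n) = bet α n * ∫ a, a ^ (α - n) ∂M := by
    rw [← setIntegral_congr_fun measurableSet_Ioi e1, ← f1, ← integral_const_mul]
    apply integral_congr_ae
    filter_upwards [hM] with a ha
    rw [bet_scale α a n (ha₀.trans_le ha.1), mul_comm]
  have s2 : ∫ r in Ioi (0 : ℝ), r ^ (α - 1) * ∫ a, Tc (fun k => (a * b k + r)⁻¹) E n ∂M =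
      In α (dg b) E n * ∫ a, a ^ (α - n) ∂M := by
    rw [← setIntegral_congr_fun measurableSet_Ioi (fun r _ => e2 r), ← f2,
      ← integral_const_mul]
    apply integral_congr_ae
    filter_upwards [hM] with a ha
    have ha0 : 0 < a := ha₀.trans_le ha.1
    rw [mul_comm (In α (dg b) E n), ← In_scale α a (dg b) E n ha0]
    unfold In
    apply setIntegral_congr_fun measurableSet_Ioi
    intro r hr
    have hr0 : (0 : ℝ) < r := hr
    show r ^ (α - 1) * Tc (fun k => (a * b k + r)⁻¹) E n = r ^ (α - 1) * tn (a • dg b) E n r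
    rw [smul_dg, tn_dg (fun k => a * b k) (fun k => mul_pos ha0 (hb k)) E n r hr0.le]
  rw [s1]
  have s3 : bet α n * (∫ a, a ^ (α - n) ∂M) * In α (dg b) E n =
      bet α n * ∫ r in Ioi (0 : ℝ), r ^ (α - 1) * ∫ a, Tc (fun k => (a * b k + r)⁻¹) E n ∂M := by
    rw [s2]; ring
  rw [s3]
  apply mul_le_mul_of_nonneg_left _ (bet_pos α n h0 hα).le
  apply setIntegral_mono_on _ hintT measurableSet_Ioi
  · intro r hr
    have hr0 : (0 : ℝ) < r := hr
    apply mul_le_mul_of_nonneg_left _ (by positivity)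
    exact rf_pointwise l hl n hn0 hn b hb E hE a₀ a₁ M ha₀ hM hfey r hr0
  · exact IntegrableOn.congr_fun f2i (fun r _ => e2 r) measurableSet_Ioi

end Pool.Agent.RC
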