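import Pool.Agent.Lib_helper33.RC_RedOne
import Pool.Agent.Lib_helper33.RC_Res
import Pool.Agent.Lib_helper95.RC.Rf

/-!
# Block CS
-/

open scoped BigOperators ComplexOrder Kronecker MatrixOrder Topology
open MeasureTheory Set Matrix Filter

namespace Pool.Agent.RC

variable {ι κ : Type} [Fintype ι] [DecidableEq ι] [Fintype κ] [DecidableEq κ]

theorem lam_smul (c p q : ℝ) (z : ℂ) (hc : 0 ≤ c) :
    lam (c * p) (c * q) ((c : ℂ) * z) = c * lam p q z := by
  unfold lam
  have h1 : (c * p + c * q) ^ 2 - 4 * ‖(c : ℂ) * z‖ ^ 2 = c ^ 2 * ((p + q) ^ 2 - 4 * ‖z‖ ^ 2) := by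
    rw [norm_mul, Complex.norm_real, Real.norm_eq_abs, mul_pow, sq_abs]
    ring
  rw [h1, Real.sqrt_mul (sq_nonneg c), Real.sqrt_sq hc]
  ring

theorem lam_congr (p q : ℝ) (z z' : ℂ) (h : ‖z‖ = ‖z'‖) : lam p q z = lam p q z' := by
  unfold lam
  rw [h]

/-- rank-one real multiples -/
theorem smul_rank_one (ρ : ℝ) (v : ι → ℂ) :
    ∃ x : ι → ℂ, ((ρ : ℂ) • vecMulVec v (star v) = vecMulVec x (star x)) ∨
      ((ρ : ℂ) • vecMulVec v (star v) = -vecMulVec x (star x)) := by
  refine ⟨((√|ρ| : ℝ) : ℂ) • v, ?_⟩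
  have h1 : vecMulVec (((√|ρ| : ℝ) : ℂ) • v) (star (((√|ρ| : ℝ) : ℂ) • v)) =
      ((|ρ| : ℝ) : ℂ) • vecMulVec v (star v) := by
    rw [star_smul, Complex.star_def, Complex.conj_ofReal, Matrix.smul_vecMulVec,
      Matrix.vecMulVec_smul, smul_smul, ← Complex.ofReal_mul,
      Real.mul_self_sqrt (abs_nonneg ρ)]
  rw [h1]
  rcases abs_cases ρ with ⟨h, -⟩ | ⟨h, -⟩
  · left; rw [h]
  · right; rw [h, Complex.ofReal_neg, neg_smul, neg_neg]

theorem sig_cases (v w : ι → ℂ) :
    LinearIndependent ℂ ![v, w] ∨ ∃ x : ι → ℂ,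
      (vecMulVec v (star v) - vecMulVec w (star w) = vecMulVec x (star x)) ∨
      (vecMulVec v (star v) - vecMulVec w (star w) = -vecMulVec x (star x)) := by
  by_cases h : LinearIndependent ℂ ![v, w]
  · exact Or.inl h
  right
  rw [LinearIndependent.pair_iff] at h
  push Not at h
  obtain ⟨s, t, hst, h⟩ := h
  by_cases ht : t = 0
  · subst ht
    have hs : s ≠ 0 := fun hs => h hs rfl
    rw [zero_smul, add_zero] at hst
    have hv : v = 0 := (smul_eq_zero.1 hst).resolve_left hs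
    refine ⟨w, Or.inr ?_⟩
    rw [hv, star_zero, Matrix.vecMulVec_zero, zero_sub]
  · have hw : w = (-(s / t)) • v := by
      have h1 : t • w = -(s • v) := by
        rw [eq_neg_iff_add_eq_zero, add_comm]
        exact hst
      have h2 : w = t⁻¹ • (t • w) := by
        rw [smul_smul, inv_mul_cancel₀ ht, one_smul]
      rw [h2, h1, smul_neg, smul_smul, neg_smul]
      congr 2
      rw [div_eq_mul_inv, mul_comm]
    set c := -(s / t) with hc
    have h3 : vecMulVec v (star v) - vecMulVec w (star w) =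
        ((1 - ‖c‖ ^ 2 : ℝ) : ℂ) • vecMulVec v (star v) := by
      rw [hw, star_smul, Matrix.smul_vecMulVec, Matrix.vecMulVec_smul, smul_smul,
        Complex.star_def, Complex.mul_conj, Complex.normSq_eq_norm_sq]
      push_cast
      rw [sub_smul, one_smul]
    rw [h3]
    exact smul_rank_one _ v

theorem tn_neg (A D : Matrix ι ι ℂ) (n : ℕ) (hn : Even n) (r : ℝ) : tn A (-D) n r = tn A D n r := by
  unfold tn
  rw [Matrix.mul_neg, hn.neg_pow]

theorem In_neg (α : ℝ) (A D : Matrix ι ι ℂ) (n : ℕ) (hn : Even n) :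
    In α A (-D) n = In α A D n := by
  unfold In
  simp only [tn_neg A D n hn]

/-- `In` of a Kronecker product: diagonalise the second factor -/
theorem In_kron_conj (α : ℝ) (A₁ D₁ : Matrix ι ι ℂ) (U B E : Matrix κ κ ℂ)
    (hU : star U * U = 1) (hU' : U * star U = 1) (n : ℕ) :
    In α (A₁ ⊗ₖ (U * B * star U)) (D₁ ⊗ₖ (U * E * star U)) n = In α (A₁ ⊗ₖ B) (D₁ ⊗ₖ E) n := by
  set V : Matrix (ι × κ) (ι × κ) ℂ := (1 : Matrix ι ι ℂ) ⊗ₖ U with hV
  have hstar : star V = (1 : Matrix ι ι ℂ) ⊗ₖ star U := by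
    rw [hV, Matrix.star_eq_conjTranspose, Matrix.conjTranspose_kronecker,
      Matrix.conjTranspose_one, Matrix.star_eq_conjTranspose]
  have hV1 : star V * V = 1 := by
    rw [hstar, hV, ← Matrix.mul_kronecker_mul, hU, Matrix.one_mul, Matrix.one_kronecker_one]
  have hV2 : V * star V = 1 := by
    rw [hstar, hV, ← Matrix.mul_kronecker_mul, hU', Matrix.one_mul, Matrix.one_kronecker_one]
  have hc : ∀ (X : Matrix ι ι ℂ) (Y : Matrix κ κ ℂ), X ⊗ₖ (U * Y * star U) =
      V * (X ⊗ₖ Y) * star V := by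
    intro X Y
    rw [hstar, hV, ← Matrix.mul_kronecker_mul, ← Matrix.mul_kronecker_mul, Matrix.one_mul,
      Matrix.mul_one]
  rw [hc, hc, In_conj α V _ _ hV1 hV2 n]

theorem posDef_kron_dg (A : Matrix ι ι ℂ) (hA : A.PosDef) (b : κ → ℝ) (hb : ∀ k, 0 < b k) :
    (A ⊗ₖ dg b).PosDef := by
  apply hA.kronecker
  unfold dg
  rw [Matrix.posDef_diagonal_iff]
  intro k
  have := hb k
  exact_mod_cast this

/-- the rank-one case -/
theorem cs_rank_one (α : ℝ) (n : ℕ) (h0 : 0 < α) (hα : α < n) (hn : Even n)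
    (A : Matrix ι ι ℂ) (hA : A.PosDef) (x : ι → ℂ)
    (b : κ → ℝ) (hb : ∀ k, 0 < b k) (E : Matrix κ κ ℂ) (hE : E.IsHermitian) :
    In α A (vecMulVec x (star x)) n * In α (dg b) E n ≤
      bet α n * In α (A ⊗ₖ dg b) (vecMulVec x (star x) ⊗ₖ E) n := by
  have hn0 : 0 < n := by
    rcases Nat.eq_zero_or_pos n with h | h
    · subst h; norm_num at hα; linarith
    · exact h
  set l : ℝ → ℝ := fun s => (form A x x s).re with hl
  have hform0 : ∀ (y : ι → ℂ) r, form A y 0 r = 0 := by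
    intro y r
    unfold form
    rw [Matrix.mulVec_zero, dotProduct_zero]
  have hform0' : ∀ r, form A 0 0 r = 0 := fun r => hform0 0 r
  have hDD : vecMulVec x (star x) = vecMulVec x (star x) - vecMulVec (0 : ι → ℂ) (star 0) := by
    rw [star_zero, Matrix.vecMulVec_zero, sub_zero]
  have h1 : In α A (vecMulVec x (star x)) n = ∫ s in Ioi (0 : ℝ), s ^ (α - 1) * l s ^ n := by
    unfold In
    apply setIntegral_congr_fun measurableSet_Ioi
    intro s hs
    have hs0 : (0 : ℝ) < s := hs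
    have hp : 0 ≤ (form A x x s).re := (form_facts A hA x 0 s hs0.le).1
    show s ^ (α - 1) * tn A (vecMulVec x (star x)) n s = s ^ (α - 1) * l s ^ n
    rw [hDD, tn_sig A hA x 0 n hn0 hn s hs0, hform0' s, hform0 x s]
    unfold lam
    have e1 : √(((form A x x s).re + (0 : ℂ).re) ^ 2 - 4 * ‖(0 : ℂ)‖ ^ 2) = (form A x x s).re := by
      rw [Complex.zero_re, add_zero, norm_zero]
      have : (form A x x s).re ^ 2 - 4 * (0 : ℝ) ^ 2 = (form A x x s).re ^ 2 := by ring
      rw [this, Real.sqrt_sq hp]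
    have e2 : √(((0 : ℂ).re + (form A x x s).re) ^ 2 - 4 * ‖(0 : ℂ)‖ ^ 2) = (form A x x s).re := by
      rw [add_comm, e1]
    rw [e1, e2, Complex.zero_re]
    have e3 : (0 - (form A x x s).re + (form A x x s).re) / 2 = 0 := by ring
    have e4 : ((form A x x s).re - 0 + (form A x x s).re) / 2 = l s := by
      rw [hl]; ring
    rw [e3, e4, zero_pow hn0.ne', add_zero]
  have h2 : In α (A ⊗ₖ dg b) (vecMulVec x (star x) ⊗ₖ E) n =
      ∫ r in Ioi (0 : ℝ), r ^ (α - 1) * Tc (fun k => (b k)⁻¹ * l (r / b k)) E n := by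
    unfold In
    apply setIntegral_congr_fun measurableSet_Ioi
    intro r hr
    have hr0 : (0 : ℝ) < r := hr
    show r ^ (α - 1) * tn (A ⊗ₖ dg b) (vecMulVec x (star x) ⊗ₖ E) n r =
      r ^ (α - 1) * Tc (fun k => (b k)⁻¹ * l (r / b k)) E n
    rw [red_one A hA x b hb E n hn0 r hr0]
    rfl
  rw [h1, h2]
  exact (resForm_ineq l (resForm_form A hA x) α n h0 hα hn b hb E hE).2.2

/-- the independent case -/
theorem cs_indep (α : ℝ) (n : ℕ) (h0 : 0 < α) (hα : α < n) (hn : Even n)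
    (A : Matrix ι ι ℂ) (hA : A.PosDef) (v w : ι → ℂ) (hvw : LinearIndependent ℂ ![v, w])
    (b : κ → ℝ) (hb : ∀ k, 0 < b k) (E : Matrix κ κ ℂ) (hE : E.IsHermitian) :
    In α A (vecMulVec v (star v) - vecMulVec w (star w)) n * In α (dg b) E n ≤
      bet α n * In α (A ⊗ₖ dg b) ((vecMulVec v (star v) - vecMulVec w (star w)) ⊗ₖ E) n := by
  have hn0 : 0 < n := by
    rcases Nat.eq_zero_or_pos n with h | h
    · subst h; norm_num at hα; linarith
    · exact h
  have hwv : LinearIndependent ℂ ![w, v] := by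
    rw [LinearIndependent.pair_iff] at hvw ⊢
    intro s t hst
    rw [add_comm] at hst
    exact (hvw t s hst).symm
  set D : Matrix ι ι ℂ := vecMulVec v (star v) - vecMulVec w (star w) with hD
  obtain ⟨lp, hlp1, hlp2, hlp3⟩ := res_seq A hA v w hvw
  obtain ⟨lm, hlm1, hlm2, hlm3⟩ := res_seq A hA w v hwv
  have hsw : ∀ s, 0 < s → lam (form A w w s).re (form A v v s).re (form A w v s) =
      lam (form A w w s).re (form A v v s).re (form A v w s) := by
    intro s hs
    apply lam_congr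
    rw [(form_facts A hA v w s hs.le).2.2.1, norm_star]
  -- pointwise lower bound
  have hpt : ∀ j r, 0 < r → Tc (fun k => (b k)⁻¹ * lp j (r / b k)) E n +
      Tc (fun k => (b k)⁻¹ * lm j (r / b k)) E n ≤ tn (A ⊗ₖ dg b) (D ⊗ₖ E) n r := by
    intro j r hr
    rw [hD]
    have hrk : ∀ k, 0 < r / b k := fun k => div_pos hr (hb k)
    have hbi : ∀ k, 0 < (b k)⁻¹ := fun k => inv_pos.2 (hb k)
    refine le_trans ?_ (align_red A hA v w b hb E hE n hn hn0 r hr)
    have e2 : (fun k => (b k)⁻¹ *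
          lam (form A w w (r / b k)).re (form A v v (r / b k)).re (form A v w (r / b k))) =
        fun k => (b k)⁻¹ *
          lam (form A w w (r / b k)).re (form A v v (r / b k)).re (form A w v (r / b k)) := by
      funext k
      rw [hsw _ (hrk k)]
    show _ ≤ Tc _ E n + Tc _ E n
    rw [e2]
    apply add_le_add
    · apply Tc_mono _ _ _ _ E hE n hn
      · exact fun k => mul_nonneg (hbi k).le (hlp2 j _ (hrk k)).1
      · exact fun k => mul_le_mul_of_nonneg_left (hlp2 j _ (hrk k)).2.2 (hbi k).le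
    · apply Tc_mono _ _ _ _ E hE n hn
      · exact fun k => mul_nonneg (hbi k).le (hlm2 j _ (hrk k)).1
      · exact fun k => mul_le_mul_of_nonneg_left (hlm2 j _ (hrk k)).2.2 (hbi k).le
  -- integrated lower bound
  have hbnd : ∀ j, (∫ s in Ioi (0 : ℝ), (s ^ (α - 1) * lp j s ^ n + s ^ (α - 1) * lm j s ^ n)) *
      In α (dg b) E n ≤ bet α n * In α (A ⊗ₖ dg b) (D ⊗ₖ E) n := by
    intro j
    obtain ⟨ip1, ip2, ip3⟩ := resForm_ineq (lp j) (hlp1 j) α n h0 hα hn b hb E hE
    obtain ⟨im1, im2, im3⟩ := resForm_ineq (lm j) (hlm1 j) α n h0 hα hn b hb E hE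
    rw [integral_add ip1 im1, add_mul]
    refine (add_le_add ip3 im3).trans ?_
    rw [← mul_add, ← integral_add ip2 im2]
    apply mul_le_mul_of_nonneg_left _ (bet_pos α n h0 hα).le
    unfold In
    apply setIntegral_mono_on (ip2.add im2)
      (integrableOn_tn α _ _ (posDef_kron_dg A hA b hb) n h0 hα) measurableSet_Ioi
    intro r hr
    have hr0 : (0 : ℝ) < r := hr
    show r ^ (α - 1) * Tc (fun k => (b k)⁻¹ * lp j (r / b k)) E n +
      r ^ (α - 1) * Tc (fun k => (b k)⁻¹ * lm j (r / b k)) E n ≤ _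
    rw [← mul_add]
    exact mul_le_mul_of_nonneg_left (hpt j r hr0) (by positivity)
  -- the limit
  have hlim : Tendsto (fun j => ∫ s in Ioi (0 : ℝ),
      (s ^ (α - 1) * lp j s ^ n + s ^ (α - 1) * lm j s ^ n)) atTop (𝓝 (In α A D n)) := by
    unfold In
    apply integral_tendsto_of_tendsto_of_monotone
    · intro j
      exact ((resForm_ineq (lp j) (hlp1 j) α n h0 hα hn b hb E hE).1).add
        ((resForm_ineq (lm j) (hlm1 j) α n h0 hα hn b hb E hE).1)
    · exact integrableOn_tn α A D hA n h0 hα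
    · refine ae_restrict_of_forall_mem measurableSet_Ioi fun s hs => ?_
      have hs0 : (0 : ℝ) < s := hs
      apply monotone_nat_of_le_succ
      intro j
      have h1 := pow_le_pow_left₀ (hlp2 j s hs0).1 (hlp2 j s hs0).2.1 n
      have h2 := pow_le_pow_left₀ (hlm2 j s hs0).1 (hlm2 j s hs0).2.1 n
      have h3 : (0 : ℝ) ≤ s ^ (α - 1) := by positivity
      exact add_le_add (mul_le_mul_of_nonneg_left h1 h3) (mul_le_mul_of_nonneg_left h2 h3)
    · refine ae_restrict_of_forall_mem measurableSet_Ioi fun s hs => ?_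
      have hs0 : (0 : ℝ) < s := hs
      rw [hD, tn_sig A hA v w n hn0 hn s hs0, mul_add, ← hsw s hs0]
      apply Tendsto.add
      · exact ((hlp3 s hs0).pow n).const_mul _
      · exact ((hlm3 s hs0).pow n).const_mul _
  exact le_of_tendsto (hlim.mul_const _) (Eventually.of_forall hbnd)

theorem cs_sig (α : ℝ) (n : ℕ) (h0 : 0 < α) (hα : α < n) (hn : Even n)
    (A₁ D₁ : Matrix ι ι ℂ) (hA₁ : A₁.PosDef) (hD₁ : Sig11 D₁)
    (A₂ D₂ : Matrix κ κ ℂ) (hA₂ : A₂.PosDef) (hD₂ : D₂.IsHermitian) :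
    In α A₁ D₁ n * In α A₂ D₂ n ≤ bet α n * In α (A₁ ⊗ₖ A₂) (D₁ ⊗ₖ D₂) n := by
  obtain ⟨U, b, E, hU, hU', hb, hA', hD', hE⟩ := exists_diag_pair A₂ D₂ hA₂
  have hE' := hE hD₂
  obtain ⟨v, w, rfl⟩ := hD₁
  rw [hA', hD', In_kron_conj α A₁ _ U _ E hU hU' n, In_conj α U _ E hU hU' n]
  rcases sig_cases v w with h | ⟨x, h | h⟩
  · exact cs_indep α n h0 hα hn A₁ hA₁ v w h b hb E hE'
  · rw [h]
    exact cs_rank_one α n h0 hα hn A₁ hA₁ x b hb E hE'
  · have hk : (-vecMulVec x (star x)) ⊗ₖ E = -((vecMulVec x (star x)) ⊗ₖ E) := by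
      ext i j
      simp [Matrix.kroneckerMap_apply]
    rw [h, hk, In_neg α _ _ n hn, In_neg α _ _ n hn]
    exact cs_rank_one α n h0 hα hn A₁ hA₁ x b hb E hE'

end Pool.Agent.RC
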